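import Pool.Agent.U3.WT.Wang

/-!
# Computability of the finite conditions
-/

set_option autoImplicit false

namespace Pool.Agent.U3.WT

open Primrec

variable {α : Type} [Primcodable α]

theorem ball_lt {f : α → ℕ} {p : α × ℕ → Prop} (hf : Primrec f) (hp : PrimrecPred p) :
    PrimrecPred fun a => ∀ i < f a, p (a, i) := by
  have h1 : PrimrecRel fun (i : ℕ) (a : α) => p (a, i) :=
    PrimrecPred.comp hp (Primrec.pair Primrec.snd Primrec.fst)
  have h2 := h1.forall_mem_list.comp (Primrec.list_range.comp hf) (Primrec.id (α := α))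
  exact h2.of_eq fun a => by simp

theorem bex_lt {f : α → ℕ} {p : α × ℕ → Prop} (hf : Primrec f) (hp : PrimrecPred p) :
    PrimrecPred fun a => ∃ i < f a, p (a, i) := by
  have h1 : PrimrecRel fun (i : ℕ) (a : α) => p (a, i) :=
    PrimrecPred.comp hp (Primrec.pair Primrec.snd Primrec.fst)
  have h2 := h1.exists_mem_list.comp (Primrec.list_range.comp hf) (Primrec.id (α := α))
  exact h2.of_eq fun a => by simp

theorem imp_pred {p q : α → Prop} (hp : PrimrecPred p) (hq : PrimrecPred q) :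
    PrimrecPred fun a => p a → q a :=
  (hp.not.or hq).of_eq fun a => by tauto

theorem pow_prim : Primrec₂ fun a b : ℕ => a ^ b := by
  have h : Primrec₂ fun (a : ℕ) (n : ℕ) => (Nat.rec 1 (fun _ IH => IH * a) n : ℕ) :=
    Primrec.nat_rec (f := fun _ : ℕ => 1) (g := fun a (q : ℕ × ℕ) => q.2 * a) (Primrec.const 1)
      (Primrec.nat_mul.comp (Primrec.snd.comp Primrec.snd) Primrec.fst)
  refine h.of_eq fun a n => ?_
  induction n with
  | zero => simp
  | succ n ih => rw [pow_succ, ← ih]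

theorem fact_prim : Primrec Nat.factorial := by
  have h : Primrec fun n : ℕ => (Nat.rec 1 (fun m IH => (m + 1) * IH) n : ℕ) :=
    Primrec.nat_rec₁ (f := fun m IH => (m + 1) * IH) 1
      (Primrec.nat_mul.comp (Primrec.succ.comp Primrec.fst) Primrec.snd)
  refine h.of_eq fun n => ?_
  induction n with
  | zero => simp
  | succ n ih => rw [Nat.factorial_succ, ← ih]

theorem Kk_prim : Primrec Kk := Primrec.nat_mul.comp fact_prim Primrec.id

theorem KK_prim : Primrec fun k => 2 * Kk k ^ 2 :=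
  Primrec.nat_mul.comp (Primrec.const 2) (pow_prim.comp Kk_prim (Primrec.const 2))

theorem Dk_prim : Primrec Dk := fact_prim.comp KK_prim

theorem rho_prim : Primrec rho :=
  Primrec.nat_add.comp (Primrec.nat_add.comp (Primrec.succ.comp
    (Primrec.nat_add.comp Dk_prim Kk_prim)) KK_prim)
    (Primrec.nat_mul.comp (Primrec.const 2) Kk_prim)

theorem side_prim : Primrec side :=
  Primrec.succ.comp (Primrec.nat_mul.comp (Primrec.const 2) rho_prim)

theorem tile_prim {S : α → List Tile} {n c i j : α → ℕ} (hS : Primrec S) (hn : Primrec n)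
    (hc : Primrec c) (hi : Primrec i) (hj : Primrec j) :
    Primrec fun a => tile (S a) (n a) (c a) (i a) (j a) := by
  unfold tile
  refine (Primrec.list_getD ((0, 0, 0, 0) : Tile)).comp hS ?_
  refine Primrec.nat_mod.comp (Primrec.nat_div.comp hc (pow_prim.comp
    (Primrec.list_length.comp hS) (Primrec.nat_add.comp (Primrec.nat_mul.comp hi hn) hj)))
    (Primrec.list_length.comp hS)

theorem left_prim : Primrec fun t : Tile => t.1 := Primrec.fst
theorem right_prim : Primrec fun t : Tile => t.2.1 := Primrec.fst.comp Primrec.snd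
theorem bot_prim : Primrec fun t : Tile => t.2.2.1 :=
  Primrec.fst.comp (Primrec.snd.comp Primrec.snd)
theorem top_prim : Primrec fun t : Tile => t.2.2.2 :=
  Primrec.snd.comp (Primrec.snd.comp Primrec.snd)

theorem valid_prim {S : α → List Tile} {n c : α → ℕ} (hS : Primrec S) (hn : Primrec n)
    (hc : Primrec c) : PrimrecPred fun a => Valid (S a) (n a) (c a) := by
  unfold Valid
  refine (Primrec.nat_lt.comp (Primrec.const 0) (Primrec.list_length.comp hS)).and ?_
  refine ball_lt (p := fun q : α × ℕ => ∀ j < n q.1,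
    (q.2 + 1 < n q.1 → (tile (S q.1) (n q.1) (c q.1) q.2 j).2.1 =
      (tile (S q.1) (n q.1) (c q.1) (q.2 + 1) j).1) ∧
    (j + 1 < n q.1 → (tile (S q.1) (n q.1) (c q.1) q.2 j).2.2.2 =
      (tile (S q.1) (n q.1) (c q.1) q.2 (j + 1)).2.2.1))
    hn ?_
  refine ball_lt (α := α × ℕ) (p := fun q =>
    (q.1.2 + 1 < n q.1.1 → (tile (S q.1.1) (n q.1.1) (c q.1.1) q.1.2 q.2).2.1 =
      (tile (S q.1.1) (n q.1.1) (c q.1.1) (q.1.2 + 1) q.2).1) ∧
    (q.2 + 1 < n q.1.1 → (tile (S q.1.1) (n q.1.1) (c q.1.1) q.1.2 q.2).2.2.2 =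
      (tile (S q.1.1) (n q.1.1) (c q.1.1) q.1.2 (q.2 + 1)).2.2.1))
    (hn.comp Primrec.fst) ?_
  have pa : Primrec fun q : (α × ℕ) × ℕ => q.1.1 := Primrec.fst.comp Primrec.fst
  have pi : Primrec fun q : (α × ℕ) × ℕ => q.1.2 := Primrec.snd.comp Primrec.fst
  have pj : Primrec fun q : (α × ℕ) × ℕ => q.2 := Primrec.snd
  have t0 := tile_prim (hS.comp pa) (hn.comp pa) (hc.comp pa) pi pj
  have t1 := tile_prim (hS.comp pa) (hn.comp pa) (hc.comp pa) (Primrec.succ.comp pi) pj
  have t2 := tile_prim (hS.comp pa) (hn.comp pa) (hc.comp pa) pi (Primrec.succ.comp pj)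
  refine PrimrecPred.and ?_ ?_
  · exact imp_pred (Primrec.nat_lt.comp (Primrec.succ.comp pi) (hn.comp pa))
      (Primrec.eq.comp (right_prim.comp t0) (left_prim.comp t1))
  · exact imp_pred (Primrec.nat_lt.comp (Primrec.succ.comp pj) (hn.comp pa))
      (Primrec.eq.comp (top_prim.comp t0) (bot_prim.comp t2))

theorem hasPer_prim {S : α → List Tile} {n c k o m : α → ℕ} (hS : Primrec S) (hn : Primrec n)
    (hc : Primrec c) (hk : Primrec k) (ho : Primrec o) (hm : Primrec m) :
    PrimrecPred fun a => HasPer (S a) (n a) (c a) (k a) (o a) (m a) := by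
  unfold HasPer
  have h2k : Primrec fun a => 2 * k a + 1 :=
    Primrec.succ.comp (Primrec.nat_mul.comp (Primrec.const 2) hk)
  refine bex_lt (p := fun q : α × ℕ => ∃ b < 2 * k q.1 + 1, (q.2 ≠ k q.1 ∨ b ≠ k q.1) ∧
    ∀ i < m q.1, ∀ j < m q.1, (k q.1 ≤ i + q.2 ∧ i + q.2 < m q.1 + k q.1 ∧ k q.1 ≤ j + b ∧
      j + b < m q.1 + k q.1) → tile (S q.1) (n q.1) (c q.1) (o q.1 + i) (o q.1 + j) =
        tile (S q.1) (n q.1) (c q.1) (o q.1 + (i + q.2 - k q.1)) (o q.1 + (j + b - k q.1)))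
    h2k ?_
  refine bex_lt (α := α × ℕ) (p := fun q => (q.1.2 ≠ k q.1.1 ∨ q.2 ≠ k q.1.1) ∧
    ∀ i < m q.1.1, ∀ j < m q.1.1, (k q.1.1 ≤ i + q.1.2 ∧ i + q.1.2 < m q.1.1 + k q.1.1 ∧
      k q.1.1 ≤ j + q.2 ∧ j + q.2 < m q.1.1 + k q.1.1) →
      tile (S q.1.1) (n q.1.1) (c q.1.1) (o q.1.1 + i) (o q.1.1 + j) =
        tile (S q.1.1) (n q.1.1) (c q.1.1) (o q.1.1 + (i + q.1.2 - k q.1.1))
          (o q.1.1 + (j + q.2 - k q.1.1)))
    (h2k.comp Primrec.fst) ?_
  have pa : Primrec fun q : (α × ℕ) × ℕ => q.1.1 := Primrec.fst.comp Primrec.fst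
  have qa : Primrec fun q : (α × ℕ) × ℕ => q.1.2 := Primrec.snd.comp Primrec.fst
  have qb : Primrec fun q : (α × ℕ) × ℕ => q.2 := Primrec.snd
  refine PrimrecPred.and ((Primrec.eq.comp qa (hk.comp pa)).not.or
    (Primrec.eq.comp qb (hk.comp pa)).not) ?_
  refine ball_lt (α := (α × ℕ) × ℕ) (p := fun r => ∀ j < m r.1.1.1,
    (k r.1.1.1 ≤ r.2 + r.1.1.2 ∧ r.2 + r.1.1.2 < m r.1.1.1 + k r.1.1.1 ∧
      k r.1.1.1 ≤ j + r.1.2 ∧ j + r.1.2 < m r.1.1.1 + k r.1.1.1) →
      tile (S r.1.1.1) (n r.1.1.1) (c r.1.1.1) (o r.1.1.1 + r.2) (o r.1.1.1 + j) =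
        tile (S r.1.1.1) (n r.1.1.1) (c r.1.1.1) (o r.1.1.1 + (r.2 + r.1.1.2 - k r.1.1.1))
          (o r.1.1.1 + (j + r.1.2 - k r.1.1.1)))
    (hm.comp pa) ?_
  refine ball_lt (α := ((α × ℕ) × ℕ) × ℕ) (p := fun r =>
    (k r.1.1.1.1 ≤ r.1.2 + r.1.1.1.2 ∧ r.1.2 + r.1.1.1.2 < m r.1.1.1.1 + k r.1.1.1.1 ∧
      k r.1.1.1.1 ≤ r.2 + r.1.1.2 ∧ r.2 + r.1.1.2 < m r.1.1.1.1 + k r.1.1.1.1) →
      tile (S r.1.1.1.1) (n r.1.1.1.1) (c r.1.1.1.1) (o r.1.1.1.1 + r.1.2) (o r.1.1.1.1 + r.2) =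
        tile (S r.1.1.1.1) (n r.1.1.1.1) (c r.1.1.1.1)
          (o r.1.1.1.1 + (r.1.2 + r.1.1.1.2 - k r.1.1.1.1))
          (o r.1.1.1.1 + (r.2 + r.1.1.2 - k r.1.1.1.1)))
    (hm.comp (pa.comp Primrec.fst)) ?_
  have f1 : Primrec fun r : (((α × ℕ) × ℕ) × ℕ) × ℕ => r.1.1.1.1 :=
    Primrec.fst.comp (Primrec.fst.comp (Primrec.fst.comp Primrec.fst))
  have f2 : Primrec fun r : (((α × ℕ) × ℕ) × ℕ) × ℕ => r.1.1.1.2 :=
    Primrec.snd.comp (Primrec.fst.comp (Primrec.fst.comp Primrec.fst))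
  have f3 : Primrec fun r : (((α × ℕ) × ℕ) × ℕ) × ℕ => r.1.1.2 :=
    Primrec.snd.comp (Primrec.fst.comp Primrec.fst)
  have f4 : Primrec fun r : (((α × ℕ) × ℕ) × ℕ) × ℕ => r.1.2 := Primrec.snd.comp Primrec.fst
  have f5 : Primrec fun r : (((α × ℕ) × ℕ) × ℕ) × ℕ => r.2 := Primrec.snd
  have hk' := hk.comp f1
  have hm' := Primrec.nat_add.comp (hm.comp f1) hk'
  have hi := Primrec.nat_add.comp f4 f2
  have hj := Primrec.nat_add.comp f5 f3
  refine imp_pred ?_ ?_
  · exact (Primrec.nat_le.comp hk' hi).and ((Primrec.nat_lt.comp hi hm').and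
      ((Primrec.nat_le.comp hk' hj).and (Primrec.nat_lt.comp hj hm')))
  · exact Primrec.eq.comp
      (tile_prim (hS.comp f1) (hn.comp f1) (hc.comp f1)
        (Primrec.nat_add.comp (ho.comp f1) f4) (Primrec.nat_add.comp (ho.comp f1) f5))
      (tile_prim (hS.comp f1) (hn.comp f1) (hc.comp f1)
        (Primrec.nat_add.comp (ho.comp f1) (Primrec.nat_sub.comp hi hk'))
        (Primrec.nat_add.comp (ho.comp f1) (Primrec.nat_sub.comp hj hk')))

theorem check_prim : PrimrecPred fun q : List Tile × ℕ => Check q.1 q.2.unpair.1 q.2.unpair.2 := by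
  have pS : Primrec fun q : List Tile × ℕ => q.1 := Primrec.fst
  have pk : Primrec fun q : List Tile × ℕ => q.2.unpair.1 :=
    Primrec.fst.comp (Primrec.unpair.comp Primrec.snd)
  have po : Primrec fun q : List Tile × ℕ => q.2.unpair.2 :=
    Primrec.snd.comp (Primrec.unpair.comp Primrec.snd)
  have pn : Primrec fun q : List Tile × ℕ => side q.2.unpair.1 + 2 * q.2.unpair.2 :=
    Primrec.nat_add.comp (side_prim.comp pk) (Primrec.nat_mul.comp (Primrec.const 2) po)
  unfold Check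
  refine ball_lt (p := fun r : (List Tile × ℕ) × ℕ =>
    Valid r.1.1 (side r.1.2.unpair.1 + 2 * r.1.2.unpair.2) r.2 →
      HasPer r.1.1 (side r.1.2.unpair.1 + 2 * r.1.2.unpair.2) r.2 r.1.2.unpair.1 r.1.2.unpair.2
        (side r.1.2.unpair.1))
    (pow_prim.comp (Primrec.list_length.comp pS) (Primrec.nat_mul.comp pn pn)) ?_
  have f1 : Primrec fun r : (List Tile × ℕ) × ℕ => r.1 := Primrec.fst
  have f2 : Primrec fun r : (List Tile × ℕ) × ℕ => r.2 := Primrec.snd
  exact imp_pred (valid_prim (pS.comp f1) (pn.comp f1) f2)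
    (hasPer_prim (pS.comp f1) (pn.comp f1) f2 (pk.comp f1) (po.comp f1)
      (side_prim.comp (pk.comp f1)))

theorem square_prim : PrimrecPred fun q : List Tile × ℕ =>
    ∃ c < q.1.length ^ ((2 * q.2 + 1) * (2 * q.2 + 1)), Valid q.1 (2 * q.2 + 1) c := by
  have pS : Primrec fun q : List Tile × ℕ => q.1 := Primrec.fst
  have pn : Primrec fun q : List Tile × ℕ => 2 * q.2 + 1 :=
    Primrec.succ.comp (Primrec.nat_mul.comp (Primrec.const 2) Primrec.snd)
  refine bex_lt (p := fun r : (List Tile × ℕ) × ℕ => Valid r.1.1 (2 * r.1.2 + 1) r.2)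
    (pow_prim.comp (Primrec.list_length.comp pS) (Primrec.nat_mul.comp pn pn)) ?_
  exact valid_prim (pS.comp Primrec.fst) (pn.comp Primrec.fst) Primrec.snd

theorem re_exists {p : α × ℕ → Prop} (hp : ComputablePred p) : REPred fun a => ∃ n, p (a, n) := by
  obtain ⟨_, hp⟩ := hp
  have h : Partrec fun a : α => Nat.rfind fun n => (Part.some (decide (p (a, n))) : Part Bool) :=
    Partrec.rfind hp.partrec
  refine h.dom_re.of_eq fun a => ?_
  rw [Nat.rfind_dom]
  constructor
  · rintro ⟨n, hn, -⟩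
    exact ⟨n, by simpa using hn⟩
  · rintro ⟨n, hn⟩
    exact ⟨n, by simpa using hn, fun _ => trivial⟩

theorem allPeriodic_iff' (S : List Tile) :
    AllPeriodic S ↔ ∃ n : ℕ, Check S n.unpair.1 n.unpair.2 := by
  rw [allPeriodic_iff]
  constructor
  · rintro ⟨k, o, h⟩
    exact ⟨Nat.pair k o, by rwa [Nat.unpair_pair]⟩
  · rintro ⟨n, h⟩
    exact ⟨_, _, h⟩

theorem re_allPeriodic : REPred AllPeriodic :=
  (re_exists (p := fun q : List Tile × ℕ => Check q.1 q.2.unpair.1 q.2.unpair.2)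
    check_prim.computablePred).of_eq fun S => (allPeriodic_iff' S).symm

theorem re_not_tiles : REPred fun S => ¬ Tiles S :=
  (re_exists square_prim.not.computablePred).of_eq fun S => by
    rw [tiles_iff, not_forall]

/-! ### The arithmetical hierarchy -/

/-- `IsSigma n α P`: the predicate `P` on the coded type `α` is `Σ⁰ₙ`.  `Σ⁰₀` means computable,
and `P` is `Σ⁰ₙ₊₁` when `P a ↔ ∃ x : ℕ, Q (a, x)` for a `Π⁰ₙ` predicate `Q`, that is, one whose
negation is `Σ⁰ₙ`. -/
def IsSigma : ℕ → (α : Type) → [Primcodable α] → (α → Prop) → Prop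
  | 0, _, _, P => ComputablePred P
  | n + 1, α, _, P => ∃ Q : α × ℕ → Prop, IsSigma n (α × ℕ) (fun q => ¬ Q q) ∧
      ∀ a, P a ↔ ∃ x, Q (a, x)

/-- `P` is arithmetical: it is `Σ⁰ₙ` for some `n`. -/
def Arithmetical (α : Type) [Primcodable α] (P : α → Prop) : Prop := ∃ n, IsSigma n α P

theorem sigma_two : IsSigma 2 (List Tile) PTile := by
  refine ⟨fun q => Tiles q.1 ∧ Check q.1 q.2.unpair.1 q.2.unpair.2, ?_, fun S => ?_⟩
  · refine ⟨fun r => ¬ ((∃ c < r.1.1.length ^ ((2 * r.2 + 1) * (2 * r.2 + 1)),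
      Valid r.1.1 (2 * r.2 + 1) c) ∧ Check r.1.1 r.1.2.unpair.1 r.1.2.unpair.2), ?_, fun q => ?_⟩
    · have h1 : PrimrecPred fun r : (List Tile × ℕ) × ℕ => ∃ c < r.1.1.length ^
          ((2 * r.2 + 1) * (2 * r.2 + 1)), Valid r.1.1 (2 * r.2 + 1) c :=
        PrimrecPred.comp square_prim
          (f := fun r : (List Tile × ℕ) × ℕ => (r.1.1, r.2))
          ((Primrec.fst.comp Primrec.fst).pair Primrec.snd)
      have h2 : PrimrecPred fun r : (List Tile × ℕ) × ℕ =>
          Check r.1.1 r.1.2.unpair.1 r.1.2.unpair.2 :=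
        PrimrecPred.comp check_prim (f := fun r : (List Tile × ℕ) × ℕ => r.1) Primrec.fst
      exact (h1.and h2).not.not.computablePred
    · beta_reduce
      rw [tiles_iff]
      constructor
      · intro h
        by_contra hc
        push Not at hc
        exact h ⟨fun R => (hc R).1, (hc 0).2⟩
      · rintro ⟨R, h⟩ ⟨h1, h2⟩
        exact h ⟨h1 R, h2⟩
  · unfold PTile
    rw [allPeriodic_iff']
    exact exists_and_left.symm

theorem sigma_two' : IsSigma 2 (List Tile) fun S => ¬ PTile S := by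
  refine ⟨fun q => (¬ ∃ c < q.1.length ^ ((2 * q.2 + 1) * (2 * q.2 + 1)),
    Valid q.1 (2 * q.2 + 1) c) ∨ ¬ AllPeriodic q.1, ?_, fun S => ?_⟩
  · refine ⟨fun r => (∃ c < r.1.1.length ^ ((2 * r.1.2 + 1) * (2 * r.1.2 + 1)),
      Valid r.1.1 (2 * r.1.2 + 1) c) ∧ Check r.1.1 r.2.unpair.1 r.2.unpair.2, ?_, fun q => ?_⟩
    · have h1 : PrimrecPred fun r : (List Tile × ℕ) × ℕ => ∃ c < r.1.1.length ^
          ((2 * r.1.2 + 1) * (2 * r.1.2 + 1)), Valid r.1.1 (2 * r.1.2 + 1) c :=
        PrimrecPred.comp square_prim (f := fun r : (List Tile × ℕ) × ℕ => r.1) Primrec.fst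
      have h2 : PrimrecPred fun r : (List Tile × ℕ) × ℕ =>
          Check r.1.1 r.2.unpair.1 r.2.unpair.2 :=
        PrimrecPred.comp check_prim
          (f := fun r : (List Tile × ℕ) × ℕ => (r.1.1, r.2))
          ((Primrec.fst.comp Primrec.fst).pair Primrec.snd)
      exact (h1.and h2).not.computablePred
    · beta_reduce
      rw [allPeriodic_iff', not_or, not_not, not_not]
      exact exists_and_left.symm
  · unfold PTile
    beta_reduce
    rw [tiles_iff, not_and_or, not_forall]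
    constructor
    · rintro (⟨R, h⟩ | h)
      · exact ⟨R, Or.inl h⟩
      · exact ⟨0, Or.inr h⟩
    · rintro ⟨R, h | h⟩
      · exact Or.inl ⟨R, h⟩
      · exact Or.inr h

theorem computablePred_comp {β : Type} [Primcodable β] {P : β → Prop} (hP : ComputablePred P)
    {f : α → β} (hf : Computable f) : ComputablePred fun a => P (f a) := by
  obtain ⟨_, h⟩ := hP
  exact ⟨fun a => inferInstance, h.comp hf⟩

theorem IsSigma.comp {n : ℕ} : ∀ {α β : Type} [Primcodable α] [Primcodable β] {P : β → Prop}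
    {f : α → β}, IsSigma n β P → Computable f → IsSigma n α fun a => P (f a) := by
  induction n with
  | zero => exact fun hP hf => computablePred_comp hP hf
  | succ n ih =>
    intro α β _ _ P f hP hf
    obtain ⟨Q, hQ, h⟩ := hP
    refine ⟨fun q => Q (f q.1, q.2), ?_, fun a => h (f a)⟩
    exact ih (f := fun q : α × ℕ => (f q.1, q.2)) hQ
      ((hf.comp Computable.fst).pair Computable.snd)

theorem ComputablePred.and' {R P : α → Prop} (hR : ComputablePred R) (hP : ComputablePred P) :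
    ComputablePred fun a => R a ∧ P a := by
  obtain ⟨_, h1⟩ := hR
  obtain ⟨_, h2⟩ := hP
  refine ⟨fun a => inferInstance, ?_⟩
  exact (Primrec.and.to_comp.comp h1 h2).of_eq fun a => by simp

theorem IsSigma.and_or {n : ℕ} : ∀ {α : Type} [Primcodable α] {R P : α → Prop},
    ComputablePred R → IsSigma n α P →
      IsSigma n α (fun a => R a ∧ P a) ∧ IsSigma n α (fun a => R a ∨ P a) := by
  induction n with
  | zero =>
    intro α _ R P hR hP
    refine ⟨ComputablePred.and' hR hP, ?_⟩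
    exact (ComputablePred.and' hR.not (ComputablePred.not hP)).not.of_eq fun a => by tauto
  | succ n ih =>
    intro α _ R P hR hP
    obtain ⟨Q, hQ, h⟩ := hP
    have hR' : ComputablePred fun q : α × ℕ => ¬ R q.1 :=
      (computablePred_comp hR Computable.fst).not
    obtain ⟨h1, h2⟩ := ih hR' hQ
    constructor
    · refine ⟨fun q => R q.1 ∧ Q q, ?_, fun a => ?_⟩
      · have e : (fun q : α × ℕ => ¬ (R q.1 ∧ Q q)) = fun q => ¬ R q.1 ∨ ¬ Q q :=
          funext fun q => propext not_and_or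
        rw [e]
        exact h2
      · beta_reduce
        rw [h]
        exact exists_and_left.symm
    · refine ⟨fun q => R q.1 ∨ Q q, ?_, fun a => ?_⟩
      · have e : (fun q : α × ℕ => ¬ (R q.1 ∨ Q q)) = fun q => ¬ R q.1 ∧ ¬ Q q :=
          funext fun q => propext not_or
        rw [e]
        exact h1
      · beta_reduce
        rw [h]
        constructor
        · rintro (hr | ⟨x, hx⟩)
          · exact ⟨0, Or.inl hr⟩
          · exact ⟨x, Or.inr hx⟩
        · rintro ⟨x, hr | hx⟩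
          · exact Or.inl hr
          · exact Or.inr ⟨x, hx⟩

/-- the set of the codes of the objects with the property `P` -/
def Codes {α : Type} [Primcodable α] (P : α → Prop) (c : ℕ) : Prop :=
  ∃ a, Encodable.encode a = c ∧ P a

theorem sigma_codes {n : ℕ} {β : Type} [Primcodable β] [Inhabited β] {P : β → Prop}
    (h : IsSigma n β P) : IsSigma n ℕ (Codes P) := by
  classical
  have hf : Computable fun c : ℕ => ((Encodable.decode c : Option β)).getD default :=
    (Primrec.option_getD.comp Primrec.decode (Primrec.const default)).to_comp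
  set f : ℕ → β := fun c => ((Encodable.decode c : Option β)).getD default with hfdef
  have h1 : ComputablePred fun c : ℕ => Encodable.encode (f c) = c := by
    refine ⟨fun c => inferInstance, ?_⟩
    exact (Primrec.eq (α := ℕ)).decide.to_comp.comp (Computable.encode.comp hf) Computable.id
  have h2 := (IsSigma.and_or h1 (h.comp hf)).1
  have e : (fun c => Encodable.encode (f c) = c ∧ P (f c)) = Codes P := by
    funext c
    apply propext
    constructor
    · rintro ⟨h3, h4⟩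
      exact ⟨f c, h3, h4⟩
    · rintro ⟨a, rfl, ha⟩
      have : f (Encodable.encode a) = a := by rw [hfdef]; simp
      rw [this]
      exact ⟨rfl, ha⟩
  rw [← e]
  exact h2

end Pool.Agent.U3.WT
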