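import Pool.Agent.U3.WT.Global

/-!
# A subshift of `ℤ × ℤ` in which every point has a nonzero period has bounded periods
-/

set_option autoImplicit false

namespace Pool.Agent.U3.WT

open Set Topology

variable {A : Type*}

/-- the translate of a configuration -/
def shift (p : ℤ × ℤ) (x : ℤ × ℤ → A) : ℤ × ℤ → A := fun a => x (a + p)

/-- invariant sets of configurations -/
def Inv (X : Set (ℤ × ℤ → A)) : Prop := ∀ x ∈ X, ∀ p, shift p x ∈ X

/-- bounded periods -/
def Covered (X : Set (ℤ × ℤ → A)) : Prop :=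
  ∃ k : ℕ, ∀ x ∈ X, ∃ v : ℤ × ℤ, v ≠ 0 ∧ Small k v ∧ ∀ a, x a = x (a + v)

/-- configurations with a small period in the central window -/
def LocP (A : Type*) (k : ℕ) : Set (ℤ × ℤ → A) :=
  {x | ∃ v : ℤ × ℤ, v ≠ 0 ∧ Small k v ∧ Per x 0 (rho k) v}

theorem per_shift {x : ℤ × ℤ → A} {p : ℤ × ℤ} {R : ℤ} {v : ℤ × ℤ} (h : Per (shift p x) 0 R v) :
    Per x p R v := by
  intro a ha hav
  have := h (a - p) (by
    constructor
    · simpa using ha.1
    · simpa using ha.2) (by
    constructor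
    · have := hav.1
      simp only [Prod.fst_add, Prod.fst_sub, Prod.fst_zero, sub_zero] at this ⊢
      rwa [show a.1 - p.1 + v.1 = a.1 + v.1 - p.1 by ring]
    · have := hav.2
      simp only [Prod.snd_add, Prod.snd_sub, Prod.snd_zero, sub_zero] at this ⊢
      rwa [show a.2 - p.2 + v.2 = a.2 + v.2 - p.2 by ring])
  unfold shift at this
  rw [sub_add_cancel, show a - p + v + p = a + v by abel] at this
  exact this

theorem covered_of_locP {X : Set (ℤ × ℤ → A)} (hX : Inv X) {k : ℕ} (h : X ⊆ LocP A k) :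
    Covered X := by
  refine ⟨Kk k, fun x hx => ?_⟩
  apply global_period k x
  intro p
  obtain ⟨v, h1, h2, h3⟩ := h (hX x hx p)
  exact ⟨v, h1, h2, per_shift h3⟩

variable [TopologicalSpace A] [DiscreteTopology A]

theorem isOpen_eq (a b : ℤ × ℤ) : IsOpen {x : ℤ × ℤ → A | x a = x b} := by
  have h : Continuous fun x : ℤ × ℤ → A => (x a, x b) := by fun_prop
  exact (isOpen_discrete {z : A × A | z.1 = z.2}).preimage h

theorem isClosed_eq' (a b : ℤ × ℤ) : IsClosed {x : ℤ × ℤ → A | x a = x b} := by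
  have h : Continuous fun x : ℤ × ℤ → A => (x a, x b) := by fun_prop
  exact (isClosed_discrete {z : A × A | z.1 = z.2}).preimage h

theorem finite_box (p : ℤ × ℤ) (R : ℤ) : {a | Box p R a}.Finite := by
  apply ((Set.finite_Icc (p.1 - R) (p.1 + R)).prod (Set.finite_Icc (p.2 - R) (p.2 + R))).subset
  intro a ha
  have a1 := abs_le.1 ha.1
  have a2 := abs_le.1 ha.2
  constructor
  · constructor <;> linarith
  · constructor <;> linarith

theorem isOpen_per (p : ℤ × ℤ) (R : ℤ) (v : ℤ × ℤ) : IsOpen {x : ℤ × ℤ → A | Per x p R v} := by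
  have h : {x : ℤ × ℤ → A | Per x p R v} =
      ⋂ a ∈ {a | Box p R a ∧ Box p R (a + v)}, {x | x a = x (a + v)} := by
    ext x
    simp only [mem_iInter, Per]
    constructor
    · intro h a ha
      exact h a ha.1 ha.2
    · intro h a h1 h2
      exact h a ⟨h1, h2⟩
  rw [h]
  apply Set.Finite.isOpen_biInter
  · exact (finite_box p R).subset fun a ha => ha.1
  · intro a _
    exact isOpen_eq a (a + v)

theorem isOpen_locP (k : ℕ) : IsOpen (LocP A k) := by
  have h : LocP A k = ⋃ (v : ℤ × ℤ) (_ : v ≠ 0 ∧ Small k v), {x | Per x 0 (rho k) v} := by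
    ext x
    simp only [LocP, mem_iUnion, exists_prop, and_assoc]
    rfl
  rw [h]
  exact isOpen_iUnion fun v => isOpen_iUnion fun _ => isOpen_per _ _ _

theorem continuous_shift (p : ℤ × ℤ) : Continuous (shift p : (ℤ × ℤ → A) → (ℤ × ℤ → A)) := by
  unfold shift
  fun_prop

variable [Finite A]

/-- compactness -/
theorem exists_subset {ι : Type*} [Nonempty ι] (Z : ι → Set (ℤ × ℤ → A)) (hdir : Directed (· ⊇ ·) Z)
    (hZ : ∀ i, IsClosed (Z i)) {U : Set (ℤ × ℤ → A)} (hU : IsOpen U) (h : ⋂ i, Z i ⊆ U) :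
    ∃ i, Z i ⊆ U :=
  exists_subset_nhds_of_compactSpace hdir hZ fun x hx => hU.mem_nhds (h hx)

/-- **Bounded periods.** If every point of a closed invariant set of configurations has a nonzero
period then the periods can be chosen of bounded size. -/
theorem covered_of_periodic (X : Set (ℤ × ℤ → A)) (hXc : IsClosed X) (hX : Inv X)
    (hper : ∀ x ∈ X, ∃ v : ℤ × ℤ, v ≠ 0 ∧ ∀ a, x a = x (a + v)) : Covered X := by
  classical
  by_contra hcon
  obtain ⟨Y, hYX, hY⟩ := zorn_superset_nonempty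
    {Y : Set (ℤ × ℤ → A) | IsClosed Y ∧ Inv Y ∧ ¬ Covered Y} (by
      intro c hc hchain hne
      refine ⟨⋂₀ c, ⟨isClosed_sInter fun Y hY => (hc hY).1, ?_, ?_⟩, fun s hs => sInter_subset_of_mem hs⟩
      · intro x hx p Y hY
        exact (hc hY).2.1 x (hx Y hY) p
      · rintro ⟨k, hk⟩
        have hne' : Nonempty c := hne.to_subtype
        have hsub : (⋂ i : c, (i : Set (ℤ × ℤ → A))) ⊆ LocP A k := by
          intro x hx
          rw [← sInter_eq_iInter] at hx
          obtain ⟨v, h1, h2, h3⟩ := hk x hx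
          exact ⟨v, h1, h2, fun a _ _ => h3 a⟩
        have hdir : Directed (· ⊇ ·) (fun i : c => (i : Set (ℤ × ℤ → A))) := by
          rintro ⟨s, hs⟩ ⟨t, ht⟩
          rcases hchain.total hs ht with h | h
          · exact ⟨⟨s, hs⟩, subset_rfl, h⟩
          · exact ⟨⟨t, ht⟩, h, subset_rfl⟩
        obtain ⟨⟨s, hs⟩, h⟩ := exists_subset (fun i : c => (i : Set (ℤ × ℤ → A))) hdir
          (fun i => (hc i.2).1) (isOpen_locP k) hsub
        exact (hc hs).2.2 (covered_of_locP (hc hs).2.1 h)) X ⟨hXc, hX, hcon⟩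
  obtain ⟨hYc, hYi, hYn⟩ := hY.prop
  -- `Y` is not empty
  have hYne : Y.Nonempty := by
    by_contra h
    rw [not_nonempty_iff_eq_empty] at h
    exact hYn ⟨0, by rw [h]; simp⟩
  have : Nonempty Y := hYne.to_subtype
  have : CompactSpace Y := isCompact_iff_compactSpace.1 hYc.isCompact
  -- Baire
  obtain ⟨⟨v, hv⟩, y, hy⟩ := nonempty_interior_of_iUnion_of_closed
    (f := fun v : {v : ℤ × ℤ // v ≠ 0} => {y : Y | ∀ a, (y : ℤ × ℤ → A) a = (y : ℤ × ℤ → A) (a + v)})
    (by
      rintro ⟨v, hv⟩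
      have h : {y : Y | ∀ a, (y : ℤ × ℤ → A) a = (y : ℤ × ℤ → A) (a + v)} =
          ⋂ a, Subtype.val ⁻¹' {x : ℤ × ℤ → A | x a = x (a + v)} := by
        ext y
        simp
      simp only
      rw [h]
      exact isClosed_iInter fun a => (isClosed_eq' a (a + v)).preimage continuous_subtype_val)
    (by
      rw [eq_univ_iff_forall]
      rintro ⟨y, hy⟩
      obtain ⟨v, hv, h⟩ := hper y (hYX hy)
      exact mem_iUnion.2 ⟨⟨v, hv⟩, h⟩)
  obtain ⟨U, hUsub, hUo, hyU⟩ := mem_interior.1 hy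
  obtain ⟨O, hO, rfl⟩ := isOpen_induced_iff.1 hUo
  -- the points of `Y` whose orbit avoids `O`
  set Y' : Set (ℤ × ℤ → A) := {z | z ∈ Y ∧ ∀ p, shift p z ∉ O} with hY'
  have hY'c : IsClosed Y' := by
    have h : Y' = Y ∩ ⋂ p, (shift p ⁻¹' O)ᶜ := by
      ext z
      simp [hY']
    rw [h]
    exact hYc.inter (isClosed_iInter fun p => (hO.preimage (continuous_shift p)).isClosed_compl)
  have hY'i : Inv Y' := by
    rintro z ⟨h1, h2⟩ p
    refine ⟨hYi z h1 p, fun q => ?_⟩
    have := h2 (q + p)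
    have e : shift q (shift p z) = shift (q + p) z := by
      funext a
      simp only [shift]
      rw [add_assoc]
    rwa [e]
  have hY'cov : Covered Y' := by
    by_contra hn
    have h1 : Y ⊆ Y' := hY.le_of_le (y := Y') ⟨hY'c, hY'i, hn⟩ fun z hz => hz.1
    have h2 := (h1 y.2).2 0
    apply h2
    have e : shift 0 (y : ℤ × ℤ → A) = y := by
      funext a
      simp [shift]
    rw [e]
    exact hyU
  obtain ⟨k, hk⟩ := hY'cov
  apply hYn
  refine ⟨max k (max v.1.natAbs v.2.natAbs), fun z hz => ?_⟩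
  by_cases hz' : z ∈ Y'
  · obtain ⟨w, h1, h2, h3⟩ := hk z hz'
    refine ⟨w, h1, ?_, h3⟩
    have hk' : (k : ℤ) ≤ ((max k (max v.1.natAbs v.2.natAbs) : ℕ) : ℤ) := by
      exact_mod_cast le_max_left _ _
    exact ⟨h2.1.trans hk', h2.2.trans hk'⟩
  · have h1 : ∃ p, shift p z ∈ O := by
      by_contra hc
      push Not at hc
      exact hz' ⟨hz, hc⟩
    obtain ⟨p, hp⟩ := h1
    have h2 : ∀ a, shift p z a = shift p z (a + v) :=
      hUsub (show (⟨shift p z, hYi z hz p⟩ : Y) ∈ Subtype.val ⁻¹' O from hp)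
    refine ⟨v, hv, ?_, fun a => ?_⟩
    · constructor
      · have : v.1.natAbs ≤ max k (max v.1.natAbs v.2.natAbs) :=
          (le_max_left _ _).trans (le_max_right _ _)
        rw [← Int.natCast_natAbs]
        exact_mod_cast this
      · have : v.2.natAbs ≤ max k (max v.1.natAbs v.2.natAbs) :=
          (le_max_right _ _).trans (le_max_right _ _)
        rw [← Int.natCast_natAbs]
        exact_mod_cast this
    · have := h2 (a - p)
      unfold shift at this
      rw [sub_add_cancel, show a - p + v + p = a + v by abel] at this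
      exact this

end Pool.Agent.U3.WT
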