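import Pool.Agent.U3.WT.Local

/-!
# Local periods give a global period: the main lemma
-/

set_option autoImplicit false

namespace Pool.Agent.U3.WT

variable {A : Type*}

/-- bound for the standard periods -/
def Kk (k : ℕ) : ℕ := k.factorial * k

/-- common multiple of the possible determinants -/
def Dk (k : ℕ) : ℕ := (2 * Kk k ^ 2).factorial

/-- the radius of the windows -/
def rho (k : ℕ) : ℕ := (Dk k + Kk k + 1) + 2 * Kk k ^ 2 + 2 * Kk k

theorem shift_of_per {x : ℤ × ℤ → A} {p : ℤ × ℤ} {R : ℤ} {v : ℤ × ℤ} (h : Per x p R v) (n : ℤ)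
    {a : ℤ × ℤ} (h1 : Box p R a) (h2 : Box p R (a.1 + n * v.1, a.2 + n * v.2)) :
    x a = x (a.1 + n * v.1, a.2 + n * v.2) := h.zsmul n a h1 h2

theorem two_periods {x : ℤ × ℤ → A} {p : ℤ × ℤ} {K r : ℤ} {w1 w2 : ℤ × ℤ} (h1 : Per x p r w1)
    (h2 : Per x p r w2) (hw1 : Small K w1) (hw2 : Small K w2) {D : ℤ} (hD : det w1 w2 ∣ D) :
    Per x p (r - 2 * K ^ 2) (D, 0) ∧ Per x p (r - 2 * K ^ 2) (0, D) := by
  have hK : 0 ≤ K := (abs_nonneg _).trans hw1.1
  have hb : ∀ c d : ℤ, |c| ≤ K → |d| ≤ K → |c * d| ≤ K ^ 2 := by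
    intro c d hc hd
    rw [abs_mul, pow_two]
    exact mul_le_mul hc hd (abs_nonneg _) hK
  have key : ∀ (α β : ℤ) (u : ℤ × ℤ), |α| ≤ K → |β| ≤ K →
      u = (α * w1.1 + β * w2.1, α * w1.2 + β * w2.2) →
      Per x p (r - 2 * K ^ 2) u := by
    intro α β u hα hβ hu a ha _
    have e1 := abs_le.1 (hb α w1.1 hα hw1.1)
    have e2 := abs_le.1 (hb α w1.2 hα hw1.2)
    have e3 := abs_le.1 (hb β w2.1 hβ hw2.1)
    have e4 := abs_le.1 (hb β w2.2 hβ hw2.2)
    have a1 := abs_le.1 ha.1
    have a2 := abs_le.1 ha.2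
    have hK2 : 0 ≤ K ^ 2 := by positivity
    have s1 : x a = x (a.1 + α * w1.1, a.2 + α * w1.2) := by
      apply shift_of_per h1
      · constructor <;> rw [abs_le] <;> constructor <;> linarith
      · constructor <;> rw [abs_le] <;> constructor <;> simp only <;> linarith
    have s2 : x (a.1 + α * w1.1, a.2 + α * w1.2) =
        x (a.1 + α * w1.1 + β * w2.1, a.2 + α * w1.2 + β * w2.2) := by
      apply shift_of_per h2 (a := (a.1 + α * w1.1, a.2 + α * w1.2))
      · constructor <;> rw [abs_le] <;> constructor <;> simp only <;> linarith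
      · constructor <;> rw [abs_le] <;> constructor <;> simp only <;> linarith
    rw [s1, s2, hu]
    congr 1
    ext
    · simp only [Prod.fst_add]; ring
    · simp only [Prod.snd_add]; ring
  have hneg : ∀ c : ℤ, |c| ≤ K → |-c| ≤ K := fun c hc => by rwa [abs_neg]
  obtain ⟨c, hc⟩ := hD
  constructor
  · have := (key w2.2 (-w1.2) (det w1 w2, 0) hw2.2 (hneg _ hw1.2) (by
      unfold det
      ext
      · simp only; ring
      · simp only; ring)).zsmul c
    simp only [mul_zero] at this
    have e : c * det w1 w2 = D := by rw [hc]; ring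
    rwa [e] at this
  · have := (key (-w2.1) w1.1 (0, det w1 w2) (hneg _ hw2.1) hw1.1 (by
      unfold det
      ext
      · simp only; ring
      · simp only; ring)).zsmul c
    simp only [mul_zero] at this
    have e : c * det w1 w2 = D := by rw [hc]; ring
    rwa [e] at this

/-- In a box with the periods `(D, 0)`, `(0, D)` a period of a smaller box is a period. -/
theorem extend_period {x : ℤ × ℤ → A} {p p' : ℤ × ℤ} {K s s' D : ℤ} {w : ℤ × ℤ} (hD : 0 < D)
    (h1 : Per x p s (D, 0)) (h2 : Per x p s (0, D)) (hw : Small K w)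
    (hsub : ∀ a, Box p' s' a → Box p s a) (hs' : D + K ≤ s') (h : Per x p' s' w) :
    Per x p s w := by
  have hmove : ∀ (b : ℤ × ℤ) (i j : ℤ), Box p s b → Box p s (b.1 + i * D, b.2 + j * D) →
      x b = x (b.1 + i * D, b.2 + j * D) := by
    intro b i j hb hb'
    have s1 : x b = x (b.1 + i * D, b.2) := by
      have := shift_of_per h1 i (a := b) hb (by
        refine ⟨hb'.1, ?_⟩
        simp only [mul_zero, add_zero]
        exact hb.2)
      simp only [mul_zero, add_zero] at this
      exact this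
    have s2 : x (b.1 + i * D, b.2) = x (b.1 + i * D, b.2 + j * D) := by
      have := shift_of_per h2 j (a := (b.1 + i * D, b.2)) ⟨hb'.1, hb.2⟩ (by
        simp only [mul_zero, add_zero]
        exact hb')
      simp only [mul_zero, add_zero] at this
      exact this
    rw [s1, s2]
  intro a ha haw
  have hK : 0 ≤ K := (abs_nonneg _).trans hw.1
  set i := (a.1 - p'.1) / D with hi
  set j := (a.2 - p'.2) / D with hj
  have e1 := Int.emod_add_mul_ediv (a.1 - p'.1) D
  have e2 := Int.emod_add_mul_ediv (a.2 - p'.2) D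
  have r1 := Int.emod_nonneg (a.1 - p'.1) hD.ne'
  have r2 := Int.emod_lt_of_pos (a.1 - p'.1) hD
  have r3 := Int.emod_nonneg (a.2 - p'.2) hD.ne'
  have r4 := Int.emod_lt_of_pos (a.2 - p'.2) hD
  rw [← hi] at e1
  rw [← hj] at e2
  have w1 := abs_le.1 hw.1
  have w2 := abs_le.1 hw.2
  have hb1 : Box p' s' (a.1 + -i * D, a.2 + -j * D) := by
    constructor <;> rw [abs_le] <;> constructor <;> simp only <;> linarith
  have hb2 : Box p' s' ((a.1 + -i * D, a.2 + -j * D) + w) := by
    constructor <;> rw [abs_le] <;> constructor <;>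
      simp only [Prod.fst_add, Prod.snd_add] <;> linarith
  have s1 := hmove a (-i) (-j) ha (hsub _ hb1)
  have s2 := hmove (a + w) (-i) (-j) haw (by
    have := hsub _ hb2
    convert this using 1
    ext
    · simp only [Prod.fst_add]; ring
    · simp only [Prod.snd_add]; ring)
  rw [s1, s2, h _ hb1 hb2]
  congr 1
  ext
  · simp only [Prod.fst_add]; ring
  · simp only [Prod.snd_add]; ring

/-- two lines which are not parallel come close to each other -/
theorem lines_meet {K : ℤ} {w w' : ℤ × ℤ} (hw : Small K w) (hw' : Small K w') (hdet : det w w' ≠ 0)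
    (d : ℤ × ℤ) : ∃ t t' : ℤ, Small (2 * K) (d.1 - t * w.1 - t' * w'.1, d.2 - t * w.2 - t' * w'.2) := by
  set Δ := det w w' with hΔ
  set α := d.1 * w'.2 - d.2 * w'.1 with hα
  set β := w.1 * d.2 - w.2 * d.1 with hβ
  have hr : ∀ c : ℤ, ∃ q e : ℤ, c = q * Δ + e ∧ |e| ≤ |Δ| := by
    intro c
    refine ⟨c / Δ, c % Δ, ?_, ?_⟩
    · have := Int.emod_add_mul_ediv c Δ
      linarith
    · rw [abs_of_nonneg (Int.emod_nonneg _ hdet)]
      exact (Int.emod_lt_abs _ hdet).le
  obtain ⟨t, e, ht, he⟩ := hr α
  obtain ⟨t', e', ht', he'⟩ := hr β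
  refine ⟨t, t', ?_⟩
  have hpos : 0 < |Δ| := abs_pos.2 hdet
  have hK : 0 ≤ K := (abs_nonneg _).trans hw.1
  have hfin : ∀ y u u' : ℤ, |u| ≤ K → |u'| ≤ K → Δ * y = e * u + e' * u' → |y| ≤ 2 * K := by
    intro y u u' hu hu' h
    have h1 : |Δ| * |y| ≤ |Δ| * (2 * K) := by
      rw [← abs_mul, h]
      calc |e * u + e' * u'| ≤ |e * u| + |e' * u'| := abs_add_le _ _
        _ = |e| * |u| + |e'| * |u'| := by rw [abs_mul, abs_mul]
        _ ≤ |Δ| * K + |Δ| * K := by
            apply add_le_add
            · exact mul_le_mul he hu (abs_nonneg _) hpos.le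
            · exact mul_le_mul he' hu' (abs_nonneg _) hpos.le
        _ = |Δ| * (2 * K) := by ring
    exact le_of_mul_le_mul_left h1 hpos
  constructor
  · apply hfin _ w.1 w'.1 hw.1 hw'.1
    have h1 : Δ * d.1 = α * w.1 + β * w'.1 := by rw [hΔ, hα, hβ, det]; ring
    simp only
    linear_combination h1 + w.1 * ht + w'.1 * ht'
  · apply hfin _ w.2 w'.2 hw.2 hw'.2
    have h1 : Δ * d.2 = α * w.2 + β * w'.2 := by rw [hΔ, hα, hβ, det]; ring
    simp only
    linear_combination h1 + w.2 * ht + w'.2 * ht'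

theorem det_star {F : ℤ} (hF : F ≠ 0) {v w : ℤ × ℤ} (hv : v ≠ 0) (hw : w ≠ 0)
    (h : det (star F v) (star F w) = 0) : det v w = 0 := by
  have h0 := gcd_pos hv
  have h1 := gcd_pos hw
  have hg0 : ((Int.gcd v.1 v.2 : ℕ) : ℤ) ≠ 0 := by exact_mod_cast h0.ne'
  have hg1 : ((Int.gcd w.1 w.2 : ℕ) : ℤ) ≠ 0 := by exact_mod_cast h1.ne'
  obtain ⟨a, ha⟩ : ((Int.gcd v.1 v.2 : ℕ) : ℤ) ∣ v.1 := Int.gcd_dvd_left ..
  obtain ⟨b, hb⟩ : ((Int.gcd v.1 v.2 : ℕ) : ℤ) ∣ v.2 := Int.gcd_dvd_right ..
  obtain ⟨c, hc⟩ : ((Int.gcd w.1 w.2 : ℕ) : ℤ) ∣ w.1 := Int.gcd_dvd_left ..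
  obtain ⟨d, hd⟩ : ((Int.gcd w.1 w.2 : ℕ) : ℤ) ∣ w.2 := Int.gcd_dvd_right ..
  have hva : v.1 / ((Int.gcd v.1 v.2 : ℕ) : ℤ) = a := Int.ediv_eq_of_eq_mul_right hg0 ha
  have hvb : v.2 / ((Int.gcd v.1 v.2 : ℕ) : ℤ) = b := Int.ediv_eq_of_eq_mul_right hg0 hb
  have hwc : w.1 / ((Int.gcd w.1 w.2 : ℕ) : ℤ) = c := Int.ediv_eq_of_eq_mul_right hg1 hc
  have hwd : w.2 / ((Int.gcd w.1 w.2 : ℕ) : ℤ) = d := Int.ediv_eq_of_eq_mul_right hg1 hd
  unfold det star at h
  rw [hva, hvb, hwc, hwd] at h
  simp only at h
  have h2 : a * d - b * c = 0 := by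
    have : F * F * (a * d - b * c) = 0 := by linear_combination h
    rcases mul_eq_zero.1 this with h3 | h3
    · exact absurd h3 (mul_ne_zero hF hF)
    · exact h3
  unfold det
  linear_combination w.2 * ha + ((Int.gcd v.1 v.2 : ℕ) : ℤ) * a * hd - w.1 * hb -
    ((Int.gcd v.1 v.2 : ℕ) : ℤ) * b * hc +
    ((Int.gcd v.1 v.2 : ℕ) : ℤ) * ((Int.gcd w.1 w.2 : ℕ) : ℤ) * h2

/-- **Local periods give a global period.** -/
theorem global_period (k : ℕ) (x : ℤ × ℤ → A)
    (H : ∀ p : ℤ × ℤ, ∃ v : ℤ × ℤ, v ≠ 0 ∧ Small k v ∧ Per x p (rho k) v) :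
    ∃ w : ℤ × ℤ, w ≠ 0 ∧ Small (Kk k) w ∧ ∀ a, x a = x (a + w) := by
  classical
  set F : ℤ := (k.factorial : ℤ) with hF
  have hF0 : F ≠ 0 := by rw [hF]; exact_mod_cast k.factorial_pos.ne'
  set K : ℤ := (Kk k : ℤ) with hK
  have hKF : K = (k.factorial : ℤ) * k := by rw [hK, Kk]; push_cast; ring
  have hK0 : 0 ≤ K := by rw [hK]; positivity
  set D : ℤ := (Dk k : ℤ) with hD
  have hD0 : 0 < D := by rw [hD, Dk]; exact_mod_cast Nat.factorial_pos _
  set s : ℤ := D + K + 1 with hs
  set r : ℤ := s + 2 * K ^ 2 with hr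
  have hrho : (rho k : ℤ) = r + 2 * K := by
    rw [rho, hr, hs, hD, hK]; push_cast; ring
  have hK2 : 0 ≤ K ^ 2 := by positivity
  -- the standard periods
  have hstar : ∀ v : ℤ × ℤ, v ≠ 0 → Small k v → ∀ p R, Per x p R v → Per x p R (star F v) := by
    intro v hv hk p R h
    obtain ⟨⟨c, hc⟩, -, -⟩ := star_spec hv hk
    rw [hF, hc]
    exact h.zsmul c
  have hsmall : ∀ v : ℤ × ℤ, v ≠ 0 → Small k v → Small K (star F v) := by
    intro v hv hk
    rw [hKF]
    exact (star_spec hv hk).2.2
  have hne : ∀ v : ℤ × ℤ, v ≠ 0 → Small k v → star F v ≠ 0 := fun v hv hk =>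
    (star_spec hv hk).2.1
  -- `I p v`: the window at `p` has the period `star v`
  let I : ℤ × ℤ → ℤ × ℤ → Prop := fun p v => v ≠ 0 ∧ Small k v ∧ Per x p r (star F v)
  have HH : ∀ p : ℤ × ℤ, ∃ v : ℤ × ℤ, v ≠ 0 ∧ Small k v ∧ Per x p (r + 2 * K) (star F v) := by
    intro p
    obtain ⟨v, h1, h2, h3⟩ := H p
    rw [hrho] at h3
    exact ⟨v, h1, h2, hstar v h1 h2 p _ h3⟩
  have hsubI : ∀ (p p' v : ℤ × ℤ), Small (2 * K) (p' - p) → v ≠ 0 → Small k v →
      Per x p (r + 2 * K) (star F v) → I p' v := by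
    intro p p' v hpp h1 h2 h3
    refine ⟨h1, h2, h3.mono ?_⟩
    intro a ha
    have a1 := abs_le.1 ha.1
    have a2 := abs_le.1 ha.2
    have b1 := abs_le.1 hpp.1
    have b2 := abs_le.1 hpp.2
    simp only [Prod.fst_sub, Prod.snd_sub] at b1 b2
    constructor <;> rw [abs_le] <;> constructor <;> linarith
  have hsmall0 : ∀ p : ℤ × ℤ, Small (2 * K) (p - p) := by
    intro p
    rw [sub_self]
    constructor <;> simp <;> linarith
  -- single windows
  let S : ℤ × ℤ → Prop := fun p => ∀ v v', I p v → I p v' → det v v' = 0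
  -- periods of translated windows
  have htrans : ∀ (p v : ℤ × ℤ), S p → I p v → ∀ u, I p u ↔ I (p + star F v) u := by
    intro p v hS hv u
    obtain ⟨v0, h1, h2, h3⟩ := HH p
    have h4 : I p v0 := hsubI p p v0 (hsmall0 p) h1 h2 h3
    have h5 : Per x p (r + 2 * K) (star F v) := by
      rcases star_parallel (F := F) h1 hv.1 (hS v0 v h4 hv) with h | h
      · rw [h]; exact h3
      · rw [h]; exact h3.neg
    have hsm := hsmall v hv.1 hv.2.1
    have w1 := abs_le.1 hsm.1
    have w2 := abs_le.1 hsm.2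
    have heq : ∀ a, Box p r a → x a = x (a + star F v) := by
      intro a ha
      have a1 := abs_le.1 ha.1
      have a2 := abs_le.1 ha.2
      apply h5
      · constructor <;> rw [abs_le] <;> constructor <;> linarith
      · constructor <;> rw [abs_le] <;> constructor <;>
          simp only [Prod.fst_add, Prod.snd_add] <;> linarith
    constructor
    · rintro ⟨u1, u2, u3⟩
      refine ⟨u1, u2, fun a ha hau => ?_⟩
      have e1 : Box p r (a - star F v) := by
        have a1 := ha.1
        have a2 := ha.2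
        simp only [Prod.fst_add, Prod.snd_add] at a1 a2
        constructor
        · simp only [Prod.fst_sub]; rwa [show a.1 - (star F v).1 - p.1 = a.1 - (p.1 + (star F v).1) by ring]
        · simp only [Prod.snd_sub]; rwa [show a.2 - (star F v).2 - p.2 = a.2 - (p.2 + (star F v).2) by ring]
      have e2 : Box p r (a - star F v + star F u) := by
        have a1 := hau.1
        have a2 := hau.2
        simp only [Prod.fst_add, Prod.snd_add] at a1 a2
        constructor
        · simp only [Prod.fst_sub, Prod.fst_add]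
          rwa [show a.1 - (star F v).1 + (star F u).1 - p.1 =
            a.1 + (star F u).1 - (p.1 + (star F v).1) by ring]
        · simp only [Prod.snd_sub, Prod.snd_add]
          rwa [show a.2 - (star F v).2 + (star F u).2 - p.2 =
            a.2 + (star F u).2 - (p.2 + (star F v).2) by ring]
      have e3 := heq _ e1
      have e4 := heq _ e2
      rw [sub_add_cancel] at e3
      rw [show a - star F v + star F u + star F v = a + star F u by abel] at e4
      rw [← e3, ← e4]
      exact u3 _ e1 e2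
    · rintro ⟨u1, u2, u3⟩
      refine ⟨u1, u2, fun a ha hau => ?_⟩
      have e3 := heq _ ha
      have e4 := heq _ hau
      rw [e3, e4]
      have := u3 (a + star F v) (by
        constructor
        · simp only [Prod.fst_add]; rw [add_sub_add_right_eq_sub]; exact ha.1
        · simp only [Prod.snd_add]; rw [add_sub_add_right_eq_sub]; exact ha.2) (by
        constructor
        · have := hau.1
          simp only [Prod.fst_add] at this ⊢
          rwa [show a.1 + (star F v).1 + (star F u).1 - (p.1 + (star F v).1) =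
            a.1 + (star F u).1 - p.1 by ring]
        · have := hau.2
          simp only [Prod.snd_add] at this ⊢
          rwa [show a.2 + (star F v).2 + (star F u).2 - (p.2 + (star F v).2) =
            a.2 + (star F u).2 - p.2 by ring])
      rw [this]
      congr 1
      abel
  have hSneg : ∀ (p v : ℤ × ℤ), I p v → I p (-v) := by
    rintro p v ⟨h1, h2, h3⟩
    refine ⟨neg_ne_zero.2 h1, ?_, ?_⟩
    · constructor
      · rw [Prod.fst_neg, abs_neg]; exact h2.1
      · rw [Prod.snd_neg, abs_neg]; exact h2.2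
    · have hd : det v (-v) = 0 := by unfold det; simp; ring
      rcases star_parallel (F := F) h1 (neg_ne_zero.2 h1) hd with h | h
      · rw [h]; exact h3
      · rw [h]; exact h3.neg
  have hstarneg : ∀ v : ℤ × ℤ, star F (-v) = - star F v := by
    intro v
    unfold star
    have hg : Int.gcd (-v).1 (-v).2 = Int.gcd v.1 v.2 := by
      rw [Prod.fst_neg, Prod.snd_neg, Int.neg_gcd, Int.gcd_neg]
    rw [hg]
    obtain ⟨a, ha⟩ : ((Int.gcd v.1 v.2 : ℕ) : ℤ) ∣ v.1 := Int.gcd_dvd_left ..
    obtain ⟨b, hb⟩ : ((Int.gcd v.1 v.2 : ℕ) : ℤ) ∣ v.2 := Int.gcd_dvd_right ..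
    ext
    · simp only [Prod.fst_neg]
      rw [Int.neg_ediv_of_dvd ⟨a, ha⟩]; ring
    · simp only [Prod.snd_neg]
      rw [Int.neg_ediv_of_dvd ⟨b, hb⟩]; ring
  have hline : ∀ (p v : ℤ × ℤ), S p → I p v → ∀ t : ℤ,
      (∀ u, I p u ↔ I (p.1 + t * (star F v).1, p.2 + t * (star F v).2) u) := by
    have hnat : ∀ (n : ℕ) (p v : ℤ × ℤ), S p → I p v →
        (∀ u, I p u ↔ I (p.1 + n * (star F v).1, p.2 + n * (star F v).2) u) := by
      intro n
      induction n with
      | zero =>
        intro p v _ _ u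
        simp
      | succ n ih =>
        intro p v hS hv u
        have h1 := htrans p v hS hv
        have hS' : S (p + star F v) := by
          intro a b ha hb
          exact hS a b ((h1 a).2 ha) ((h1 b).2 hb)
        have h2 := ih (p + star F v) v hS' ((h1 v).1 hv) u
        rw [h1 u, h2]
        have e : ((p + star F v).1 + (n : ℤ) * (star F v).1, (p + star F v).2 + (n : ℤ) * (star F v).2) =
            (p.1 + ((n + 1 : ℕ) : ℤ) * (star F v).1, p.2 + ((n + 1 : ℕ) : ℤ) * (star F v).2) := by
          ext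
          · simp only [Prod.fst_add]; push_cast; ring
          · simp only [Prod.snd_add]; push_cast; ring
        rw [e]
    intro p v hS hv t u
    obtain ⟨n, rfl | rfl⟩ := Int.eq_nat_or_neg t
    · exact hnat n p v hS hv u
    · have := hnat n p (-v) hS (hSneg p v hv) u
      rw [this, hstarneg]
      have e : (p.1 + (n : ℤ) * (-star F v).1, p.2 + (n : ℤ) * (-star F v).2) =
          (p.1 + -(n : ℤ) * (star F v).1, p.2 + -(n : ℤ) * (star F v).2) := by
        ext
        · simp only [Prod.fst_neg]; ring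
        · simp only [Prod.snd_neg]; ring
      rw [e]
  -- two single windows have parallel periods
  have hcross : ∀ (p q v v' : ℤ × ℤ), S p → S q → I p v → I q v' → det v v' = 0 := by
    intro p q v v' hp hq hv hv'
    by_contra hdet
    have hdet' : det (star F v) (star F v') ≠ 0 := fun h => hdet (det_star hF0 hv.1 hv'.1 h)
    obtain ⟨t, t', h⟩ := lines_meet (hsmall v hv.1 hv.2.1) (hsmall v' hv'.1 hv'.2.1) hdet' (q - p)
    set P : ℤ × ℤ := (p.1 + t * (star F v).1, p.2 + t * (star F v).2) with hP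
    set Q : ℤ × ℤ := (q.1 + (-t') * (star F v').1, q.2 + (-t') * (star F v').2) with hQ
    obtain ⟨u, u1, u2, u3⟩ := HH P
    have i1 : I P u := hsubI P P u (hsmall0 P) u1 u2 u3
    have i2 : I Q u := hsubI P Q u (by
      have e : Q - P = ((q - p).1 - t * (star F v).1 - t' * (star F v').1,
          (q - p).2 - t * (star F v).2 - t' * (star F v').2) := by
        rw [hP, hQ]
        ext
        · simp only [Prod.fst_sub]; ring
        · simp only [Prod.snd_sub]; ring
      rw [e]; exact h) u1 u2 u3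
    have j1 : I p u := (hline p v hp hv t u).2 i1
    have j2 : I q u := (hline q v' hq hv' (-t') u).2 i2
    have d1 := hp v u hv j1
    have d2 := hq v' u hv' j2
    apply hdet
    unfold det at *
    -- `u ≠ 0` is parallel to both
    by_cases hu : u.1 = 0
    · have hu2 : u.2 ≠ 0 := fun h0 => u1 (Prod.ext hu h0)
      rw [hu] at d1 d2
      have z1 : v.1 = 0 := by
        have : v.1 * u.2 = 0 := by linarith
        exact (mul_eq_zero.1 this).resolve_right hu2
      have z2 : v'.1 = 0 := by
        have : v'.1 * u.2 = 0 := by linarith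
        exact (mul_eq_zero.1 this).resolve_right hu2
      rw [z1, z2]; ring
    · have : u.1 * (v.1 * v'.2 - v.2 * v'.1) = 0 := by
        linear_combination (-v.1) * d2 + v'.1 * d1
      exact (mul_eq_zero.1 this).resolve_left hu
  -- the choice of the direction
  obtain ⟨p0, v, hv, hall⟩ : ∃ p0 v : ℤ × ℤ, I p0 v ∧ ∀ q v', S q → I q v' → det v v' = 0 := by
    by_cases hex : ∃ p, S p
    · obtain ⟨p, hp⟩ := hex
      obtain ⟨v, h1, h2, h3⟩ := HH p
      have h4 : I p v := hsubI p p v (hsmall0 p) h1 h2 h3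
      exact ⟨p, v, h4, fun q v' hq hv' => hcross p q v v' hp hq h4 hv'⟩
    · push Not at hex
      obtain ⟨v, h1, h2, h3⟩ := HH 0
      exact ⟨0, v, hsubI 0 0 v (hsmall0 0) h1 h2 h3, fun q v' hq _ => absurd hq (hex q)⟩
  have hsmv := hsmall v hv.1 hv.2.1
  -- the induction
  have hbase : Per x p0 s (star F v) := by
    apply hv.2.2.mono
    intro a ha
    have a1 := abs_le.1 ha.1
    have a2 := abs_le.1 ha.2
    constructor <;> rw [abs_le] <;> constructor <;> linarith
  have hstep : ∀ p p' : ℤ × ℤ, Small 1 (p' - p) → Per x p s (star F v) → Per x p' s (star F v) := by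
    intro p p' hpp hper
    by_cases hS : S p'
    · obtain ⟨v', h1, h2, h3⟩ := HH p'
      have h4 : I p' v' := hsubI p' p' v' (hsmall0 p') h1 h2 h3
      have h5 := hall p' v' hS h4
      have h6 : Per x p' s (star F v') := by
        apply h3.mono
        intro a ha
        have a1 := abs_le.1 ha.1
        have a2 := abs_le.1 ha.2
        constructor <;> rw [abs_le] <;> constructor <;> linarith
      have h7 : det v' v = 0 := by unfold det at h5 ⊢; linarith
      rcases star_parallel (F := F) h1 hv.1 h7 with h | h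
      · rw [h]; exact h6
      · rw [h]; exact h6.neg
    · -- double window
      obtain ⟨v1, v2, h1, h2, h3⟩ : ∃ v1 v2, I p' v1 ∧ I p' v2 ∧ det v1 v2 ≠ 0 := by
        by_contra hcon
        push Not at hcon
        exact hS fun a b ha hb => hcon a b ha hb
      have hs1 := hsmall v1 h1.1 h1.2.1
      have hs2 := hsmall v2 h2.1 h2.2.1
      have hdvd : det (star F v1) (star F v2) ∣ D := by
        have hne : det (star F v1) (star F v2) ≠ 0 := fun h => h3 (det_star hF0 h1.1 h2.1 h)
        have hle : (det (star F v1) (star F v2)).natAbs ≤ 2 * Kk k ^ 2 := by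
          have hb : ∀ c d : ℤ, |c| ≤ K → |d| ≤ K → |c * d| ≤ K ^ 2 := by
            intro c d hc hd
            rw [abs_mul, pow_two]
            exact mul_le_mul hc hd (abs_nonneg _) hK0
          have e1 := abs_le.1 (hb _ _ hs1.1 hs2.2)
          have e2 := abs_le.1 (hb _ _ hs1.2 hs2.1)
          have e3 : |det (star F v1) (star F v2)| ≤ 2 * K ^ 2 := by
            unfold det
            rw [abs_le]
            constructor <;> linarith
          have e4 : ((det (star F v1) (star F v2)).natAbs : ℤ) ≤ ((2 * Kk k ^ 2 : ℕ) : ℤ) := by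
            rw [Int.natCast_natAbs]
            push_cast
            exact e3
          exact_mod_cast e4
        have := Nat.dvd_factorial (Int.natAbs_pos.2 hne) hle
        rw [hD, Dk]
        exact Int.natAbs_dvd.1 (Int.natCast_dvd_natCast.2 this)
      obtain ⟨hp1, hp2⟩ := two_periods h1.2.2 h2.2.2 hs1 hs2 hdvd
      have hrs : r - 2 * K ^ 2 = s := by rw [hr]; ring
      rw [hrs] at hp1 hp2
      apply extend_period (p' := p') (s' := s - 1) hD0 hp1 hp2 hsmv
      · intro a ha
        have a1 := abs_le.1 ha.1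
        have a2 := abs_le.1 ha.2
        constructor <;> rw [abs_le] <;> constructor <;> linarith
      · rw [hs]; linarith
      · apply hper.mono
        intro a ha
        have a1 := abs_le.1 ha.1
        have a2 := abs_le.1 ha.2
        have b1 := abs_le.1 hpp.1
        have b2 := abs_le.1 hpp.2
        simp only [Prod.fst_sub, Prod.snd_sub] at b1 b2
        constructor <;> rw [abs_le] <;> constructor <;> linarith
  have hall2 : ∀ p : ℤ × ℤ, Per x p s (star F v) := by
    have hx : ∀ (n : ℤ), Per x (p0.1 + n, p0.2) s (star F v) := by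
      intro n
      induction n using Int.induction_on with
      | zero => simpa using hbase
      | succ n ih =>
        apply hstep _ _ _ ih
        constructor <;> simp [← add_assoc]
      | pred n ih =>
        apply hstep _ _ _ ih
        constructor
        · simp only [Prod.fst_sub]
          rw [show p0.1 + (-(n : ℤ) - 1) - (p0.1 + -(n : ℤ)) = -1 by ring]
          simp
        · simp
    have hy : ∀ (m n : ℤ), Per x (p0.1 + n, p0.2 + m) s (star F v) := by
      intro m n
      induction m using Int.induction_on with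
      | zero => simpa using hx n
      | succ m ih =>
        apply hstep _ _ _ ih
        constructor <;> simp [← add_assoc]
      | pred m ih =>
        apply hstep _ _ _ ih
        constructor
        · simp
        · simp only [Prod.snd_sub]
          rw [show p0.2 + (-(m : ℤ) - 1) - (p0.2 + -(m : ℤ)) = -1 by ring]
          simp
    intro p
    have := hy (p.2 - p0.2) (p.1 - p0.1)
    simpa using this
  refine ⟨star F v, hne v hv.1 hv.2.1, hsmv, fun a => ?_⟩
  apply hall2 a
  · constructor <;> simp <;> linarith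
  · have w1 := hsmv.1
    have w2 := hsmv.2
    constructor
    · simp only [Prod.fst_add, add_sub_cancel_left]; linarith
    · simp only [Prod.snd_add, add_sub_cancel_left]; linarith

end Pool.Agent.U3.WT
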