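import Mathlib

/-!
# Local periods give a global period

If the restriction of a map on `ℤ × ℤ` to each box of a certain radius has a nonzero period of size at
most `k`, then the map has a nonzero period (of size at most a constant which depends only on `k`).
-/

set_option autoImplicit false

namespace Pool.Agent.U3.WT

/-- the box of radius `R` around `p` -/
def Box (p : ℤ × ℤ) (R : ℤ) (a : ℤ × ℤ) : Prop := |a.1 - p.1| ≤ R ∧ |a.2 - p.2| ≤ R

/-- the vectors of size at most `k` -/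
def Small (k : ℤ) (v : ℤ × ℤ) : Prop := |v.1| ≤ k ∧ |v.2| ≤ k

variable {A : Type*}

/-- `v` is a period of the restriction of `x` to the box of radius `R` around `p` -/
def Per (x : ℤ × ℤ → A) (p : ℤ × ℤ) (R : ℤ) (v : ℤ × ℤ) : Prop :=
  ∀ a, Box p R a → Box p R (a + v) → x a = x (a + v)

theorem Per.mono {x : ℤ × ℤ → A} {p p' : ℤ × ℤ} {R R' : ℤ} {v : ℤ × ℤ} (h : Per x p R v)
    (hsub : ∀ a, Box p' R' a → Box p R a) : Per x p' R' v :=
  fun a h1 h2 => h a (hsub a h1) (hsub _ h2)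

theorem Per.neg {x : ℤ × ℤ → A} {p : ℤ × ℤ} {R : ℤ} {v : ℤ × ℤ} (h : Per x p R v) :
    Per x p R (-v) := by
  intro a h1 h2
  have := h (a + -v) h2 (by rwa [neg_add_cancel_right])
  rw [neg_add_cancel_right] at this
  exact this.symm

theorem Per.nsmul {x : ℤ × ℤ → A} {p : ℤ × ℤ} {R : ℤ} {v : ℤ × ℤ} (h : Per x p R v) (n : ℕ) :
    Per x p R ((n : ℤ) * v.1, (n : ℤ) * v.2) := by
  induction n with
  | zero =>
    intro a _ _
    congr 1
    ext <;> simp
  | succ n ih =>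
    intro a h1 h2
    have hconv : ∀ c d : ℤ, |c| ≤ R → |c + ((n + 1 : ℕ) : ℤ) * d| ≤ R → |c + d| ≤ R := by
      intro c d hc hd
      push_cast at hd
      rw [abs_le] at *
      have hn : (0 : ℤ) ≤ n := Int.natCast_nonneg n
      constructor
      · by_contra hcon
        push Not at hcon
        nlinarith
      · by_contra hcon
        push Not at hcon
        nlinarith
    have h3 : Box p R (a + v) := by
      constructor
      · have := hconv (a.1 - p.1) v.1 h1.1 (by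
          have := h2.1
          simp only [Prod.fst_add] at this
          rwa [show a.1 + ((n + 1 : ℕ) : ℤ) * v.1 - p.1 = a.1 - p.1 + ((n + 1 : ℕ) : ℤ) * v.1 by ring]
            at this)
        simp only [Prod.fst_add]
        rwa [show a.1 + v.1 - p.1 = a.1 - p.1 + v.1 by ring]
      · have := hconv (a.2 - p.2) v.2 h1.2 (by
          have := h2.2
          simp only [Prod.snd_add] at this
          rwa [show a.2 + ((n + 1 : ℕ) : ℤ) * v.2 - p.2 = a.2 - p.2 + ((n + 1 : ℕ) : ℤ) * v.2 by ring]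
            at this)
        simp only [Prod.snd_add]
        rwa [show a.2 + v.2 - p.2 = a.2 - p.2 + v.2 by ring]
    rw [h a h1 h3]
    have h4 : a + v + ((n : ℤ) * v.1, (n : ℤ) * v.2) =
        a + (((n + 1 : ℕ) : ℤ) * v.1, ((n + 1 : ℕ) : ℤ) * v.2) := by
      ext
      · simp only [Prod.fst_add]; push_cast; ring
      · simp only [Prod.snd_add]; push_cast; ring
    rw [← h4]
    apply ih _ h3
    rw [h4]
    exact h2

theorem Per.zsmul {x : ℤ × ℤ → A} {p : ℤ × ℤ} {R : ℤ} {v : ℤ × ℤ} (h : Per x p R v) (n : ℤ) :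
    Per x p R (n * v.1, n * v.2) := by
  obtain ⟨m, rfl | rfl⟩ := Int.eq_nat_or_neg n
  · exact h.nsmul m
  · have := (h.nsmul m).neg
    convert this using 1
    ext <;> simp

/-- the determinant -/
def det (v w : ℤ × ℤ) : ℤ := v.1 * w.2 - v.2 * w.1

/-- Two primitive parallel vectors are equal up to sign. -/
theorem prim_parallel {u u' : ℤ × ℤ} (hu : IsCoprime u.1 u.2) (hu' : IsCoprime u'.1 u'.2)
    (h : det u u' = 0) : u' = u ∨ u' = -u := by
  unfold det at h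
  have h' : u.1 * u'.2 = u.2 * u'.1 := by linarith
  have h1 : u.1 ∣ u'.1 := hu.dvd_of_dvd_mul_left (Dvd.intro _ h')
  have h2 : u'.1 ∣ u.1 := by
    apply hu'.dvd_of_dvd_mul_left
    exact ⟨u.2, by linarith⟩
  have h3 : u.2 ∣ u'.2 := hu.symm.dvd_of_dvd_mul_left (Dvd.intro _ h'.symm)
  have h4 : u'.2 ∣ u.2 := by
    apply hu'.symm.dvd_of_dvd_mul_left
    exact ⟨u.1, by linarith⟩
  have h5 := Int.natAbs_eq_natAbs_iff.1 (Nat.dvd_antisymm (Int.natAbs_dvd_natAbs.2 h2)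
    (Int.natAbs_dvd_natAbs.2 h1))
  have h6 := Int.natAbs_eq_natAbs_iff.1 (Nat.dvd_antisymm (Int.natAbs_dvd_natAbs.2 h4)
    (Int.natAbs_dvd_natAbs.2 h3))
  rcases h5 with h5 | h5 <;> rcases h6 with h6 | h6
  · left; ext <;> assumption
  · have h7 : u.1 * u.2 = 0 := by rw [h5, h6] at h'; linarith
    rcases mul_eq_zero.1 h7 with h8 | h8
    · right
      ext
      · rw [Prod.fst_neg, h5, h8, neg_zero]
      · rw [Prod.snd_neg, h6]
    · left
      ext
      · exact h5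
      · rw [h6, h8, neg_zero]
  · have h7 : u.1 * u.2 = 0 := by rw [h5, h6] at h'; linarith
    rcases mul_eq_zero.1 h7 with h8 | h8
    · left
      ext
      · rw [h5, h8, neg_zero]
      · exact h6
    · right
      ext
      · rw [Prod.fst_neg, h5]
      · rw [Prod.snd_neg, h6, h8, neg_zero]
  · right
    ext
    · rw [Prod.fst_neg, h5]
    · rw [Prod.snd_neg, h6]

/-- the standard multiple of a vector: `F` times the primitive vector in its direction -/
def star (F : ℤ) (v : ℤ × ℤ) : ℤ × ℤ :=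
  (F * (v.1 / (Int.gcd v.1 v.2 : ℤ)), F * (v.2 / (Int.gcd v.1 v.2 : ℤ)))

theorem gcd_pos {v : ℤ × ℤ} (hv : v ≠ 0) : 0 < Int.gcd v.1 v.2 := by
  apply Nat.pos_of_ne_zero
  intro h
  rw [Int.gcd_eq_zero_iff] at h
  exact hv (Prod.ext h.1 h.2)

theorem gcd_le {k : ℕ} {v : ℤ × ℤ} (hv : v ≠ 0) (hk : Small k v) : Int.gcd v.1 v.2 ≤ k := by
  have h0 := gcd_pos hv
  by_cases h1 : v.1 = 0
  · have h2 : v.2 ≠ 0 := fun h => hv (Prod.ext h1 h)
    have h3 : Int.gcd v.1 v.2 ≤ v.2.natAbs :=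
      Nat.le_of_dvd (Int.natAbs_pos.2 h2) (Int.natCast_dvd.1 (Int.gcd_dvd_right ..))
    have := abs_le.1 hk.2
    omega
  · have h3 : Int.gcd v.1 v.2 ≤ v.1.natAbs :=
      Nat.le_of_dvd (Int.natAbs_pos.2 h1) (Int.natCast_dvd.1 (Int.gcd_dvd_left ..))
    have := abs_le.1 hk.1
    omega

theorem star_spec {k : ℕ} {v : ℤ × ℤ} (hv : v ≠ 0) (hk : Small k v) :
    (∃ c : ℤ, star (k.factorial) v = (c * v.1, c * v.2)) ∧
    star (k.factorial) v ≠ 0 ∧ Small (k.factorial * k) (star (k.factorial) v) := by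
  have h0 := gcd_pos hv
  have h1 := gcd_le hv hk
  set g := Int.gcd v.1 v.2 with hg
  obtain ⟨a, ha⟩ : (g : ℤ) ∣ v.1 := Int.gcd_dvd_left ..
  obtain ⟨b, hb⟩ : (g : ℤ) ∣ v.2 := Int.gcd_dvd_right ..
  have hg0 : (g : ℤ) ≠ 0 := by exact_mod_cast h0.ne'
  have hva : v.1 / (g : ℤ) = a := by rw [ha]; exact Int.mul_ediv_cancel_left _ hg0
  have hvb : v.2 / (g : ℤ) = b := by rw [hb]; exact Int.mul_ediv_cancel_left _ hg0
  have hst : star (k.factorial) v = ((k.factorial : ℤ) * a, (k.factorial : ℤ) * b) := by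
    rw [star, ← hg, hva, hvb]
  have hF : (0 : ℤ) < k.factorial := by exact_mod_cast k.factorial_pos
  refine ⟨?_, ?_, ?_⟩
  · obtain ⟨c, hc⟩ := Nat.dvd_factorial h0 h1
    refine ⟨c, ?_⟩
    rw [hst, ha, hb, hc]
    push_cast
    ext
    · simp only; ring
    · simp only; ring
  · rw [hst]
    intro h
    have h2 := congrArg Prod.fst h
    have h3 := congrArg Prod.snd h
    simp only [Prod.fst_zero, Prod.snd_zero, mul_eq_zero] at h2 h3
    apply hv
    ext
    · rw [ha, (h2.resolve_left hF.ne')]; simp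
    · rw [hb, (h3.resolve_left hF.ne')]; simp
  · rw [hst]
    have hle : ∀ c : ℤ, |(g : ℤ) * c| ≤ k → |c| ≤ k := by
      intro c hc
      rw [abs_mul] at hc
      have h2 : (1 : ℤ) ≤ |(g : ℤ)| := by
        rw [Nat.abs_cast]
        exact_mod_cast h0
      nlinarith [abs_nonneg c]
    have ha' := hle a (by rw [← ha]; exact hk.1)
    have hb' := hle b (by rw [← hb]; exact hk.2)
    constructor
    · simp only [abs_mul, Nat.abs_cast]
      exact mul_le_mul_of_nonneg_left ha' hF.le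
    · simp only [abs_mul, Nat.abs_cast]
      exact mul_le_mul_of_nonneg_left hb' hF.le

theorem star_parallel {F : ℤ} {v w : ℤ × ℤ} (hv : v ≠ 0) (hw : w ≠ 0) (h : det v w = 0) :
    star F w = star F v ∨ star F w = -star F v := by
  have h0 := gcd_pos hv
  have h1 := gcd_pos hw
  have hg0 : ((Int.gcd v.1 v.2 : ℕ) : ℤ) ≠ 0 := by exact_mod_cast h0.ne'
  have hg1 : ((Int.gcd w.1 w.2 : ℕ) : ℤ) ≠ 0 := by exact_mod_cast h1.ne'
  obtain ⟨a, ha⟩ : ((Int.gcd v.1 v.2 : ℕ) : ℤ) ∣ v.1 := Int.gcd_dvd_left ..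
  obtain ⟨b, hb⟩ : ((Int.gcd v.1 v.2 : ℕ) : ℤ) ∣ v.2 := Int.gcd_dvd_right ..
  obtain ⟨c, hc⟩ : ((Int.gcd w.1 w.2 : ℕ) : ℤ) ∣ w.1 := Int.gcd_dvd_left ..
  obtain ⟨d, hd⟩ : ((Int.gcd w.1 w.2 : ℕ) : ℤ) ∣ w.2 := Int.gcd_dvd_right ..
  have hva : v.1 / ((Int.gcd v.1 v.2 : ℕ) : ℤ) = a := by
    conv_lhs => rw [ha]
    rw [← ha]
    exact Int.ediv_eq_of_eq_mul_right hg0 ha
  have hvb : v.2 / ((Int.gcd v.1 v.2 : ℕ) : ℤ) = b := Int.ediv_eq_of_eq_mul_right hg0 hb
  have hwc : w.1 / ((Int.gcd w.1 w.2 : ℕ) : ℤ) = c := Int.ediv_eq_of_eq_mul_right hg1 hc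
  have hwd : w.2 / ((Int.gcd w.1 w.2 : ℕ) : ℤ) = d := Int.ediv_eq_of_eq_mul_right hg1 hd
  have hcop : IsCoprime a b := by
    have h2 := Int.gcd_eq_gcd_ab v.1 v.2
    refine ⟨Int.gcdA v.1 v.2, Int.gcdB v.1 v.2, ?_⟩
    apply mul_left_cancel₀ hg0
    linear_combination -h2 - Int.gcdA v.1 v.2 * ha - Int.gcdB v.1 v.2 * hb
  have hcop' : IsCoprime c d := by
    have h2 := Int.gcd_eq_gcd_ab w.1 w.2
    refine ⟨Int.gcdA w.1 w.2, Int.gcdB w.1 w.2, ?_⟩
    apply mul_left_cancel₀ hg1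
    linear_combination -h2 - Int.gcdA w.1 w.2 * hc - Int.gcdB w.1 w.2 * hd
  have hdet : det (a, b) (c, d) = 0 := by
    unfold det at h ⊢
    simp only
    have h3 : ((Int.gcd v.1 v.2 : ℕ) : ℤ) * ((Int.gcd w.1 w.2 : ℕ) : ℤ) * (a * d - b * c) = 0 := by
      have e : ((Int.gcd v.1 v.2 : ℕ) : ℤ) * ((Int.gcd w.1 w.2 : ℕ) : ℤ) * (a * d - b * c) =
        (((Int.gcd v.1 v.2 : ℕ) : ℤ) * a) * (((Int.gcd w.1 w.2 : ℕ) : ℤ) * d) -
        (((Int.gcd v.1 v.2 : ℕ) : ℤ) * b) * (((Int.gcd w.1 w.2 : ℕ) : ℤ) * c) := by ring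
      rw [e, ← ha, ← hb, ← hc, ← hd]
      exact h
    rcases mul_eq_zero.1 h3 with h4 | h4
    · exact absurd h4 (mul_ne_zero hg0 hg1)
    · exact h4
  unfold star
  rw [hva, hvb, hwc, hwd]
  rcases prim_parallel (u := (a, b)) (u' := (c, d)) hcop hcop' hdet with h5 | h5
  · left
    have h6 := congrArg Prod.fst h5
    have h7 := congrArg Prod.snd h5
    simp only at h6 h7
    rw [h6, h7]
  · right
    have h6 := congrArg Prod.fst h5
    have h7 := congrArg Prod.snd h5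
    simp only [Prod.fst_neg, Prod.snd_neg] at h6 h7
    rw [h6, h7]
    ext <;> simp

end Pool.Agent.U3.WT
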