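import Pool.Agent.U3.WT.Cover

/-!
# Wang tile sets: finite windows
-/

set_option autoImplicit false

namespace Pool.Agent.U3.WT

open Set

/-- A Wang tile: the colours of the left, right, bottom and top edge. -/
abbrev Tile : Type := ℕ × ℕ × ℕ × ℕ

/-- `T` is a tiling of the plane by tiles of `S`: adjacent tiles have the same colour on their
common edge. -/
def IsTiling (S : List Tile) (T : ℤ × ℤ → Tile) : Prop :=
  (∀ p, T p ∈ S) ∧ (∀ i j, (T (i, j)).2.1 = (T (i + 1, j)).1) ∧
    (∀ i j, (T (i, j)).2.2.2 = (T (i, j + 1)).2.2.1)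

/-- `T` has a nonzero period. -/
def Periodic (T : ℤ × ℤ → Tile) : Prop := ∃ v : ℤ × ℤ, v ≠ 0 ∧ ∀ p, T (p + v) = T p

/-- Every tiling by `S` is periodic. -/
def AllPeriodic (S : List Tile) : Prop := ∀ T, IsTiling S T → Periodic T

/-- `S` admits a tiling. -/
def Tiles (S : List Tile) : Prop := ∃ T, IsTiling S T

/-- The set `PTile_FIN`: `S` admits at least one tiling, and every tiling by `S` is periodic. -/
def PTile (S : List Tile) : Prop := Tiles S ∧ AllPeriodic S

/-- the tile with the coordinates `i`, `j` in the pattern with side `n` and code `c` -/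
def tile (S : List Tile) (n c i j : ℕ) : Tile :=
  S.getD (c / S.length ^ (i * n + j) % S.length) (0, 0, 0, 0)

/-- the pattern with the code `c` is a correct tiling of the square with side `n` -/
def Valid (S : List Tile) (n c : ℕ) : Prop :=
  0 < S.length ∧ ∀ i < n, ∀ j < n,
    (i + 1 < n → (tile S n c i j).2.1 = (tile S n c (i + 1) j).1) ∧
    (j + 1 < n → (tile S n c i j).2.2.2 = (tile S n c i (j + 1)).2.2.1)

/-- the central square with side `m` (position `o`) has a nonzero period of size at most `k` -/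
def HasPer (S : List Tile) (n c k o m : ℕ) : Prop :=
  ∃ a < 2 * k + 1, ∃ b < 2 * k + 1, (a ≠ k ∨ b ≠ k) ∧ ∀ i < m, ∀ j < m,
    (k ≤ i + a ∧ i + a < m + k ∧ k ≤ j + b ∧ j + b < m + k) →
      tile S n c (o + i) (o + j) = tile S n c (o + (i + a - k)) (o + (j + b - k))

/-- side of the central square -/
def side (k : ℕ) : ℕ := 2 * rho k + 1

/-- the decidable condition -/
def Check (S : List Tile) (k o : ℕ) : Prop :=
  ∀ c < S.length ^ ((side k + 2 * o) * (side k + 2 * o)),
    Valid S (side k + 2 * o) c → HasPer S (side k + 2 * o) c k o (side k)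

theorem tile_mem {S : List Tile} (hS : 0 < S.length) (n c i j : ℕ) : tile S n c i j ∈ S := by
  unfold tile
  have h : c / S.length ^ (i * n + j) % S.length < S.length := Nat.mod_lt _ hS
  rw [List.getD_eq_getElem _ _ h]
  exact List.getElem_mem h

/-- every pattern has a code -/
theorem exists_code (S : List Tile) (n : ℕ) (g : ℕ → ℕ → Tile)
    (hg : ∀ i < n, ∀ j < n, g i j ∈ S) :
    ∃ c < S.length ^ (n * n), ∀ i < n, ∀ j < n, tile S n c i j = g i j := by
  classical
  have h1 : ∀ q : Fin (n * n), ∃ e : Fin S.length, S[e] = g (q / n) (q % n) := by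
    intro q
    have hq := q.2
    have hn : 0 < n := by
      rcases Nat.eq_zero_or_pos n with h | h
      · subst h; simp at hq
      · exact h
    have h2 : (q : ℕ) / n < n := (Nat.div_lt_iff_lt_mul hn).2 hq
    have h3 : (q : ℕ) % n < n := Nat.mod_lt _ hn
    obtain ⟨e, he, h4⟩ := List.mem_iff_getElem.1 (hg _ h2 _ h3)
    exact ⟨⟨e, he⟩, h4⟩
  choose F hF using h1
  refine ⟨finFunctionFinEquiv F, (finFunctionFinEquiv F).2, fun i hi j hj => ?_⟩
  have hq : i * n + j < n * n := by nlinarith
  have h2 := congrFun (finFunctionFinEquiv.symm_apply_apply F) ⟨i * n + j, hq⟩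
  have h3 : (finFunctionFinEquiv F : ℕ) / S.length ^ (i * n + j) % S.length =
      (F ⟨i * n + j, hq⟩ : ℕ) := by
    have := congrArg Fin.val h2
    rw [← this]
    rfl
  unfold tile
  rw [h3, List.getD_eq_getElem _ _ (F ⟨i * n + j, hq⟩).2]
  have h4 := hF ⟨i * n + j, hq⟩
  have e1 : (i * n + j) / n = i := by
    rw [mul_comm, Nat.mul_add_div (by omega : 0 < n), Nat.div_eq_of_lt hj, add_zero]
  have e2 : (i * n + j) % n = j := Nat.mul_add_mod_of_lt hj
  simp only [e1, e2] at h4
  exact h4

/-! ### Windows of tilings -/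

/-- `x` is correct in the box of radius `R` around the origin -/
def Cor {S : List Tile} (R : ℤ) (x : ℤ × ℤ → {t // t ∈ S}) : Prop :=
  (∀ i j, Box 0 R (i, j) → Box 0 R (i + 1, j) → (x (i, j)).1.2.1 = (x (i + 1, j)).1.1) ∧
  (∀ i j, Box 0 R (i, j) → Box 0 R (i, j + 1) → (x (i, j)).1.2.2.2 = (x (i, j + 1)).1.2.2.1)

theorem isClosed_rel {S : List Tile} (a b : ℤ × ℤ) (P : {t // t ∈ S} → {t // t ∈ S} → Prop) :
    IsClosed {x : ℤ × ℤ → {t // t ∈ S} | P (x a) (x b)} := by
  have h : Continuous fun x : ℤ × ℤ → {t // t ∈ S} => (x a, x b) := by fun_prop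
  exact (isClosed_discrete {z : {t // t ∈ S} × {t // t ∈ S} | P z.1 z.2}).preimage h

theorem isClosed_cor {S : List Tile} (R : ℤ) :
    IsClosed {x : ℤ × ℤ → {t // t ∈ S} | Cor R x} := by
  unfold Cor
  rw [ofPred_and]
  apply IsClosed.inter
  · simp only [ofPred_forall]
    refine isClosed_iInter fun i => isClosed_iInter fun j => isClosed_iInter fun _ =>
      isClosed_iInter fun _ => isClosed_rel (i, j) (i + 1, j) fun s t => s.1.2.1 = t.1.1
  · simp only [ofPred_forall]
    refine isClosed_iInter fun i => isClosed_iInter fun j => isClosed_iInter fun _ =>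
      isClosed_iInter fun _ => isClosed_rel (i, j) (i, j + 1) fun s t => s.1.2.2.2 = t.1.2.2.1

theorem Cor.mono {S : List Tile} {R R' : ℤ} (h : R ≤ R') {x : ℤ × ℤ → {t // t ∈ S}}
    (hx : Cor R' x) : Cor R x :=
  ⟨fun i j h1 h2 => hx.1 i j ⟨h1.1.trans h, h1.2.trans h⟩ ⟨h2.1.trans h, h2.2.trans h⟩,
    fun i j h1 h2 => hx.2 i j ⟨h1.1.trans h, h1.2.trans h⟩ ⟨h2.1.trans h, h2.2.trans h⟩⟩

theorem isTiling_of_cor {S : List Tile} (R : ℤ) {x : ℤ × ℤ → {t // t ∈ S}}
    (h : ∀ o : ℕ, Cor (R + o) x) : IsTiling S fun p => (x p).1 := by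
  refine ⟨fun p => (x p).2, fun i j => ?_, fun i j => ?_⟩
  · refine (h (|i| + |i + 1| + |j| + |R|).toNat).1 i j ?_ ?_ <;>
    · have h1 := abs_nonneg i
      have h2 := abs_nonneg (i + 1)
      have h3 := abs_nonneg j
      have h4 := neg_abs_le R
      rw [Int.toNat_of_nonneg (by positivity)]
      constructor <;> simp only [Prod.fst_zero, Prod.snd_zero, sub_zero] <;> linarith
  · refine (h (|i| + |j + 1| + |j| + |R|).toNat).2 i j ?_ ?_ <;>
    · have h1 := abs_nonneg i
      have h2 := abs_nonneg (j + 1)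
      have h3 := abs_nonneg j
      have h4 := neg_abs_le R
      rw [Int.toNat_of_nonneg (by positivity)]
      constructor <;> simp only [Prod.fst_zero, Prod.snd_zero, sub_zero] <;> linarith

theorem cor_of_isTiling {S : List Tile} {x : ℤ × ℤ → {t // t ∈ S}}
    (h : IsTiling S fun p => (x p).1) (R : ℤ) : Cor R x :=
  ⟨fun i j _ _ => h.2.1 i j, fun i j _ _ => h.2.2 i j⟩

/-- the configuration given by a code -/
noncomputable def conf (S : List Tile) (hS : 0 < S.length) (n c : ℕ) (R : ℤ) :
    ℤ × ℤ → {t // t ∈ S} :=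
  fun p => ⟨tile S n c (p.1 + R).toNat (p.2 + R).toNat, tile_mem hS _ _ _ _⟩

theorem cor_conf {S : List Tile} (hS : 0 < S.length) (c R : ℕ) (h : Valid S (2 * R + 1) c) :
    Cor (R : ℤ) (conf S hS (2 * R + 1) c R) := by
  constructor
  · intro i j h1 h2
    have a1 := abs_le.1 h1.1
    have a2 := abs_le.1 h1.2
    have a3 := abs_le.1 h2.1
    simp only [Prod.fst_zero, Prod.snd_zero, sub_zero] at a1 a2 a3
    have := (h.2 (i + R).toNat (by omega) (j + R).toNat (by omega)).1 (by omega)
    simp only [conf]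
    rw [this]
    congr 2
    omega
  · intro i j h1 h2
    have a1 := abs_le.1 h1.1
    have a2 := abs_le.1 h1.2
    have a3 := abs_le.1 h2.2
    simp only [Prod.fst_zero, Prod.snd_zero, sub_zero] at a1 a2 a3
    have := (h.2 (i + R).toNat (by omega) (j + R).toNat (by omega)).2 (by omega)
    simp only [conf]
    rw [this]
    congr 4
    omega

theorem allPeriodic_of_check {S : List Tile} {k o : ℕ} (h : Check S k o) : AllPeriodic S := by
  intro T hT
  obtain ⟨w, hw, -, hper⟩ := global_period k T (by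
    intro p
    set R : ℕ := rho k + o with hR
    have hn : side k + 2 * o = 2 * R + 1 := by rw [side, hR]; ring
    set n := side k + 2 * o with hn'
    obtain ⟨c, hc, hcode⟩ := exists_code S n
      (fun i j => T (p.1 + i - R, p.2 + j - R)) fun i _ j _ => hT.1 _
    have hS : 0 < S.length := List.length_pos_of_mem (hT.1 p)
    have hval : Valid S n c := by
      refine ⟨hS, fun i hi j hj => ⟨fun hi' => ?_, fun hj' => ?_⟩⟩
      · rw [hcode i hi j hj, hcode (i + 1) hi' j hj]
        have := hT.2.1 (p.1 + i - R) (p.2 + j - R)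
        rw [this]
        congr 2
        push_cast
        ext
        · simp only; ring
        · simp only
      · rw [hcode i hi j hj, hcode i hi (j + 1) hj']
        have := hT.2.2 (p.1 + i - R) (p.2 + j - R)
        rw [this]
        congr 4
        push_cast
        ext
        · simp only
        · simp only; ring
    obtain ⟨a, ha, b, hb, hne, hper⟩ := h c hc hval
    rw [← hn'] at hper
    refine ⟨((a : ℤ) - k, (b : ℤ) - k), ?_, ?_, ?_⟩
    · intro h0
      have h1 := congrArg Prod.fst h0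
      have h2 := congrArg Prod.snd h0
      simp only [Prod.fst_zero, Prod.snd_zero] at h1 h2
      omega
    · constructor <;> rw [abs_le] <;> constructor <;> simp only <;> omega
    · intro z hz hz'
      have a1 := abs_le.1 hz.1
      have a2 := abs_le.1 hz.2
      have a3 := abs_le.1 hz'.1
      have a4 := abs_le.1 hz'.2
      simp only [Prod.fst_add, Prod.snd_add] at a3 a4
      obtain ⟨i, hi⟩ : ∃ i : ℕ, (i : ℤ) = z.1 - p.1 + rho k :=
        ⟨(z.1 - p.1 + rho k).toNat, by rw [Int.toNat_of_nonneg]; linarith⟩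
      obtain ⟨j, hj⟩ : ∃ j : ℕ, (j : ℤ) = z.2 - p.2 + rho k :=
        ⟨(z.2 - p.2 + rho k).toNat, by rw [Int.toNat_of_nonneg]; linarith⟩
      have hside : side k = 2 * rho k + 1 := rfl
      have h1 := hper i (by omega) j (by omega) ⟨by omega, by omega, by omega, by omega⟩
      rw [hcode (o + i) (by omega) (o + j) (by omega),
        hcode (o + (i + a - k)) (by omega) (o + (j + b - k)) (by omega)] at h1
      have e1 : ((p.1 + ((o + i : ℕ) : ℤ) - R, p.2 + ((o + j : ℕ) : ℤ) - R) : ℤ × ℤ) = z := by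
        ext
        · simp only; rw [hR]; push_cast; linarith
        · simp only; rw [hR]; push_cast; linarith
      have e2 : ((p.1 + ((o + (i + a - k) : ℕ) : ℤ) - R, p.2 + ((o + (j + b - k) : ℕ) : ℤ) - R) :
          ℤ × ℤ) = z + ((a : ℤ) - k, (b : ℤ) - k) := by
        ext
        · simp only [Prod.fst_add]; rw [hR]; omega
        · simp only [Prod.snd_add]; rw [hR]; omega
      rw [e1, e2] at h1
      exact h1)
  exact ⟨w, hw, fun p => (hper p).symm⟩

theorem finite_sub (S : List Tile) : Finite {t // t ∈ S} := (List.finite_toSet S).to_subtype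

/-- **Structure theorem.** -/
theorem bounded_periods {S : List Tile} (h : AllPeriodic S) :
    ∃ k : ℕ, ∀ T, IsTiling S T → ∃ v : ℤ × ℤ, v ≠ 0 ∧ Small k v ∧ ∀ p, T (p + v) = T p := by
  have := finite_sub S
  set X : Set (ℤ × ℤ → {t // t ∈ S}) := {x | IsTiling S fun p => (x p).1} with hX
  have hcl : IsClosed X := by
    have : X = ⋂ o : ℕ, {x | Cor ((0 : ℤ) + o) x} := by
      ext x
      rw [mem_iInter]
      exact ⟨fun h o => cor_of_isTiling h _, fun h => isTiling_of_cor 0 h⟩
    rw [this]
    exact isClosed_iInter fun o => isClosed_cor _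
  have hinv : Inv X := by
    rintro x ⟨h1, h2, h3⟩ p
    refine ⟨fun q => (shift p x q).2, fun i j => ?_, fun i j => ?_⟩
    · have := h2 (i + p.1) (j + p.2)
      simp only [shift, Prod.mk_add_mk] at this ⊢
      have e : ((i, j) : ℤ × ℤ) + p = (i + p.1, j + p.2) := rfl
      have e' : ((i + 1, j) : ℤ × ℤ) + p = (i + p.1 + 1, j + p.2) := by
        ext
        · simp only [Prod.fst_add]; ring
        · simp only [Prod.snd_add]
      rw [e, e']
      exact this
    · have := h3 (i + p.1) (j + p.2)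
      simp only [shift, Prod.mk_add_mk] at this ⊢
      have e : ((i, j) : ℤ × ℤ) + p = (i + p.1, j + p.2) := rfl
      have e' : ((i, j + 1) : ℤ × ℤ) + p = (i + p.1, j + p.2 + 1) := by
        ext
        · simp only [Prod.fst_add]
        · simp only [Prod.snd_add]; ring
      rw [e, e']
      exact this
  obtain ⟨k, hk⟩ := covered_of_periodic X hcl hinv (by
    intro x hx
    obtain ⟨v, hv, hper⟩ := h _ hx
    exact ⟨v, hv, fun a => Subtype.ext (hper a).symm⟩)
  refine ⟨k, fun T hT => ?_⟩
  obtain ⟨v, hv, hs, hper⟩ := hk (fun p => ⟨T p, hT.1 p⟩) hT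
  exact ⟨v, hv, hs, fun p => (congrArg Subtype.val (hper p)).symm⟩

theorem check_of_allPeriodic {S : List Tile} (h : AllPeriodic S) : ∃ k o, Check S k o := by
  have := finite_sub S
  obtain ⟨k, hk⟩ := bounded_periods h
  set Z : ℕ → Set (ℤ × ℤ → {t // t ∈ S}) := fun o => {x | Cor ((rho k : ℤ) + o) x} with hZ
  obtain ⟨o, ho⟩ := exists_subset Z (by
    intro a b
    refine ⟨max a b, fun x hx => ?_, fun x hx => ?_⟩
    · exact Cor.mono (by
        have : (a : ℤ) ≤ (max a b : ℕ) := by exact_mod_cast le_max_left a b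
        linarith) hx
    · exact Cor.mono (by
        have : (b : ℤ) ≤ (max a b : ℕ) := by exact_mod_cast le_max_right a b
        linarith) hx) (fun o => isClosed_cor _) (isOpen_locP (A := {t // t ∈ S}) k) (by
    intro x hx
    rw [mem_iInter] at hx
    obtain ⟨v, h1, h2, h3⟩ := hk _ (isTiling_of_cor (rho k) hx)
    exact ⟨v, h1, h2, fun a _ _ => Subtype.ext (h3 a).symm⟩)
  refine ⟨k, o, fun c _ hval => ?_⟩
  have hS := hval.1
  set R : ℕ := rho k + o with hR
  have hn : side k + 2 * o = 2 * R + 1 := by rw [side, hR]; ring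
  rw [hn] at hval ⊢
  have h1 := cor_conf hS c R hval
  have h2 : conf S hS (2 * R + 1) c R ∈ Z o := by
    rw [hZ]
    have e : (rho k : ℤ) + o = (R : ℤ) := by rw [hR]; push_cast; ring
    show Cor _ _
    rw [e]
    exact h1
  obtain ⟨v, hv, hs, hper⟩ := ho h2
  have s1 := abs_le.1 hs.1
  have s2 := abs_le.1 hs.2
  refine ⟨(v.1 + k).toNat, by omega, (v.2 + k).toNat, by omega, ?_, ?_⟩
  · by_contra hc
    push Not at hc
    apply hv
    ext
    · simp only [Prod.fst_zero]; omega
    · simp only [Prod.snd_zero]; omega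
  · intro i hi j hj hcond
    have hside : side k = 2 * rho k + 1 := rfl
    obtain ⟨c1, c2, c3, c4⟩ := hcond
    have h3 := hper ((i : ℤ) - rho k, (j : ℤ) - rho k) (by
      constructor <;> rw [abs_le] <;> constructor <;>
        simp only [Prod.fst_zero, Prod.snd_zero] <;> omega) (by
      constructor <;> rw [abs_le] <;> constructor <;>
        simp only [Prod.fst_zero, Prod.snd_zero, Prod.fst_add, Prod.snd_add] <;> omega)
    have h4 := congrArg Subtype.val h3
    simp only [conf, Prod.fst_add, Prod.snd_add] at h4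
    have e1 : ((i : ℤ) - rho k + R).toNat = o + i := by rw [hR]; omega
    have e2 : ((j : ℤ) - rho k + R).toNat = o + j := by rw [hR]; omega
    have e3 : ((i : ℤ) - rho k + v.1 + R).toNat = o + (i + (v.1 + k).toNat - k) := by
      rw [hR]; omega
    have e4 : ((j : ℤ) - rho k + v.2 + R).toNat = o + (j + (v.2 + k).toNat - k) := by
      rw [hR]; omega
    rw [e1, e2, e3, e4] at h4
    exact h4

theorem allPeriodic_iff (S : List Tile) : AllPeriodic S ↔ ∃ k o, Check S k o :=
  ⟨check_of_allPeriodic, fun ⟨_, _, h⟩ => allPeriodic_of_check h⟩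

theorem tiles_iff (S : List Tile) : Tiles S ↔ ∀ R : ℕ, ∃ c < S.length ^ ((2 * R + 1) * (2 * R + 1)),
    Valid S (2 * R + 1) c := by
  constructor
  · rintro ⟨T, hT⟩ R
    obtain ⟨c, hc, hcode⟩ := exists_code S (2 * R + 1) (fun i j => T (i, j)) fun i _ j _ => hT.1 _
    refine ⟨c, hc, List.length_pos_of_mem (hT.1 0), fun i hi j hj => ⟨fun hi' => ?_, fun hj' => ?_⟩⟩
    · rw [hcode i hi j hj, hcode (i + 1) hi' j hj]
      exact_mod_cast hT.2.1 i j
    · rw [hcode i hi j hj, hcode i hi (j + 1) hj']
      exact_mod_cast hT.2.2 i j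
  · intro h
    have := finite_sub S
    by_contra hcon
    obtain ⟨o, ho⟩ := exists_subset (A := {t // t ∈ S})
      (fun o : ℕ => {x | Cor ((0 : ℤ) + o) x}) (by
      intro a b
      refine ⟨max a b, fun x hx => ?_, fun x hx => ?_⟩
      · exact Cor.mono (by
          have : (a : ℤ) ≤ (max a b : ℕ) := by exact_mod_cast le_max_left a b
          linarith) hx
      · exact Cor.mono (by
          have : (b : ℤ) ≤ (max a b : ℕ) := by exact_mod_cast le_max_right a b
          linarith) hx) (fun o => isClosed_cor _) (U := ∅) isOpen_empty (by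
      intro x hx
      rw [mem_iInter] at hx
      exact hcon ⟨_, isTiling_of_cor 0 hx⟩)
    obtain ⟨c, -, hval⟩ := h o
    have h1 := cor_conf hval.1 c o hval
    have h2 : conf S hval.1 (2 * o + 1) c o ∈ (∅ : Set (ℤ × ℤ → {t // t ∈ S})) := ho (by
      show Cor _ _
      rw [zero_add]
      exact h1)
    exact h2

end Pool.Agent.U3.WT
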